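import Pool.Agent.W354.PK.Defs
import Pool.Agent.H304R3.HK.PairH

set_option autoImplicit false

/-!
Continuation and functional equation from the theta series, infinity type `k`.
Adapted from `Pool.Agent.H304R3.HK.PairH` (helper726, helper911).
-/

open Finset Filter Topology MeasureTheory Set Asymptotics

namespace Pool.Agent.W354.PK

open Pool.Agent.H304R3.HK.L1 (mellin_conj)

namespace L1

/-- majorant of the coefficients -/
noncomputable def db (k : ℕ) (n : ℕ) : ℝ := (n.divisors.card : ℝ) * Real.sqrt n ^ k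

theorem db_nonneg (k n : ℕ) : 0 ≤ db k n := by unfold db; positivity

theorem db_crude (k n : ℕ) : db k n ≤ (n : ℝ) ^ (k + 1) := by
  unfold db
  rcases Nat.eq_zero_or_pos n with h | h
  · subst h; simp
  have h1 : (n.divisors.card : ℝ) ≤ n := by exact_mod_cast Nat.card_divisors_le_self n
  have hn : (1 : ℝ) ≤ n := by exact_mod_cast h
  have h2 : Real.sqrt n ≤ n := by
    rw [Real.sqrt_le_left (by linarith)]
    nlinarith
  calc (n.divisors.card : ℝ) * Real.sqrt n ^ k ≤ n * (n : ℝ) ^ k :=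
        mul_le_mul h1 (pow_le_pow_left₀ (Real.sqrt_nonneg _) h2 k) (by positivity) (by linarith)
    _ = (n : ℝ) ^ (k + 1) := by ring

/-- the coefficients -/
noncomputable def cf (k : ℕ) (b : ℕ → ℂ) (n : ℕ) : ℂ := b n * (Real.sqrt n : ℂ) ^ k

theorem cf_zero (k : ℕ) (b : ℕ → ℂ) (h0 : b 0 = 0) : cf k b 0 = 0 := by
  unfold cf; simp [h0]

theorem cf_norm_le (k : ℕ) (b : ℕ → ℂ) (hb : ∀ n : ℕ, ‖b n‖ ≤ n.divisors.card) (n : ℕ) :
    ‖cf k b n‖ ≤ db k n := by
  unfold cf db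
  rw [norm_mul, norm_pow, Complex.norm_real, Real.norm_eq_abs, abs_of_nonneg (Real.sqrt_nonneg _)]
  exact mul_le_mul_of_nonneg_right (hb n) (by positivity)

theorem summ_crude (k : ℕ) {y : ℝ} (hy : 0 < y) :
    Summable (fun n : ℕ => db k n * Real.exp (-Real.pi * n * y)) := by
  have hpi := Real.pi_pos
  have hr : ‖Real.exp (-(Real.pi * y))‖ < 1 := by
    rw [Real.norm_eq_abs, abs_of_pos (Real.exp_pos _), Real.exp_lt_one_iff]
    have := mul_pos hpi hy
    linarith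
  have h2 := summable_pow_mul_geometric_of_norm_lt_one (k + 1) hr
  refine Summable.of_nonneg_of_le (fun n => mul_nonneg (db_nonneg k n) (Real.exp_pos _).le)
    (fun n => ?_) h2
  have hexp : Real.exp (-Real.pi * n * y) = Real.exp (-(Real.pi * y)) ^ n := by
    rw [← Real.exp_nat_mul]; ring_nf
  rw [hexp]
  exact mul_le_mul_of_nonneg_right (db_crude k n) (by positivity)

theorem summ_cf (k : ℕ) (b : ℕ → ℂ) (hb : ∀ n : ℕ, ‖b n‖ ≤ n.divisors.card) {y : ℝ} (hy : 0 < y) :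
    Summable (fun n : ℕ => cf k b n * (Real.exp (-Real.pi * n * y) : ℂ)) := by
  refine Summable.of_norm_bounded (summ_crude k hy) (fun n => ?_)
  rw [norm_mul, Complex.norm_real, Real.norm_eq_abs, abs_of_pos (Real.exp_pos _)]
  exact mul_le_mul_of_nonneg_right (cf_norm_le k b hb n) (Real.exp_pos _).le

theorem TH_hasSum (k : ℕ) (b : ℕ → ℂ) (hb : ∀ n : ℕ, ‖b n‖ ≤ n.divisors.card) {y : ℝ}
    (hy : 0 < y) :
    HasSum (fun n : ℕ => cf k b n * (Real.exp (-Real.pi * n * y) : ℂ)) (THk k b y) :=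
  (summ_cf k b hb hy).hasSum

theorem TH_cont (k : ℕ) (b : ℕ → ℂ) (hb : ∀ n : ℕ, ‖b n‖ ≤ n.divisors.card) :
    ContinuousOn (THk k b) (Ioi 0) := by
  intro y hy
  have hy0 : (0 : ℝ) < y := hy
  have h1 : ContinuousOn (THk k b) (Ioi (y / 2)) := by
    unfold THk
    apply continuousOn_tsum (u := fun n : ℕ => db k n * Real.exp (-Real.pi * n * (y / 2)))
    · intro n
      fun_prop
    · exact summ_crude k (by linarith)
    · intro n x hx
      have hx' : y / 2 < x := hx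
      rw [norm_mul, Complex.norm_real (Real.exp _), Real.norm_eq_abs, abs_of_pos (Real.exp_pos _)]
      refine mul_le_mul (cf_norm_le k b hb n) ?_ (Real.exp_pos _).le (db_nonneg k n)
      apply Real.exp_le_exp.mpr
      have hn : (0 : ℝ) ≤ n := Nat.cast_nonneg n
      have hpi := Real.pi_pos
      have : Real.pi * n * (y / 2) ≤ Real.pi * n * x :=
        mul_le_mul_of_nonneg_left hx'.le (by positivity)
      linarith
  exact (h1.continuousAt (Ioi_mem_nhds (by linarith))).continuousWithinAt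

theorem TH_bound (k : ℕ) (b : ℕ → ℂ) (hb : ∀ n : ℕ, ‖b n‖ ≤ n.divisors.card) :
    ∃ C : ℝ, ∀ y : ℝ, 1 ≤ y → ‖THk k b y‖ ≤ C * Real.exp (-(Real.pi / 2) * y) := by
  refine ⟨∑' n : ℕ, db k n * Real.exp (-Real.pi * n * (1 / 2)), fun y hy => ?_⟩
  have hs := summ_crude k (y := 1 / 2) (by norm_num)
  have hs' := hs.mul_right (Real.exp (-(Real.pi / 2) * y))
  rw [← tsum_mul_right]
  unfold THk
  refine tsum_of_norm_bounded hs'.hasSum (fun n => ?_)
  rw [norm_mul, Complex.norm_real (Real.exp _), Real.norm_eq_abs, abs_of_pos (Real.exp_pos _),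
    mul_assoc (db k n)]
  rcases Nat.eq_zero_or_pos n with h0 | h0
  · subst h0
    have h1 : ‖b 0‖ = 0 := by
      have := hb 0
      simp only [Nat.divisors_zero, Finset.card_empty, Nat.cast_zero] at this
      exact le_antisymm this (norm_nonneg _)
    rw [norm_mul, h1]
    simp [db]
  refine mul_le_mul (cf_norm_le k b hb n) ?_ (Real.exp_pos _).le (db_nonneg k n)
  rw [← Real.exp_add]
  apply Real.exp_le_exp.mpr
  have hn : (1 : ℝ) ≤ n := by exact_mod_cast h0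
  have hpi := Real.pi_pos
  have : 0 ≤ Real.pi * ((n : ℝ) - 1) * y / 2 + Real.pi * n * (y - 1) / 2 := by
    have h1 : 0 ≤ (n : ℝ) - 1 := by linarith
    have h2 : 0 ≤ y - 1 := by linarith
    positivity
  nlinarith [this]

/-- scaled theta function -/
noncomputable def sTH (k : ℕ) (κ : ℝ) (b : ℕ → ℂ) (x : ℝ) : ℂ := THk k b (x / κ)

theorem sTH_cont (k : ℕ) (κ : ℝ) (hκ : 0 < κ) (b : ℕ → ℂ)
    (hb : ∀ n : ℕ, ‖b n‖ ≤ n.divisors.card) : ContinuousOn (sTH k κ b) (Ioi 0) := by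
  unfold sTH
  refine (TH_cont k b hb).comp (by fun_prop) ?_
  intro x hx
  have hx' : (0 : ℝ) < x := hx
  exact div_pos hx' hκ

theorem sTH_top (k : ℕ) (κ : ℝ) (hκ : 0 < κ) (b : ℕ → ℂ)
    (hb : ∀ n : ℕ, ‖b n‖ ≤ n.divisors.card)
    (r : ℝ) : (fun x => sTH k κ b x - 0) =O[atTop] (fun x : ℝ => x ^ r) := by
  obtain ⟨C, hC⟩ := TH_bound k b hb
  set c : ℝ := Real.pi / 2 / κ with hc
  have hcpos : 0 < c := div_pos (by positivity) hκ
  have h1 : (fun x => sTH k κ b x - 0) =O[atTop] (fun x : ℝ => Real.exp (-c * x)) := by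
    refine IsBigO.of_bound C ?_
    filter_upwards [eventually_ge_atTop κ] with x hx
    rw [sub_zero, Real.norm_eq_abs, abs_of_pos (Real.exp_pos _)]
    have h2 := hC (x / κ) (by rw [le_div_iff₀ hκ]; linarith)
    unfold sTH
    refine h2.trans (le_of_eq ?_)
    congr 2
    rw [hc]
    field_simp
  exact h1.trans (isLittleO_exp_neg_mul_rpow_atTop hcpos r).isBigO

/-- the conjugate of the scaled theta function -/
noncomputable def cTH (k : ℕ) (κ : ℝ) (b : ℕ → ℂ) (x : ℝ) : ℂ := (starRingEnd ℂ) (sTH k κ b x)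

theorem cTH_cont (k : ℕ) (κ : ℝ) (hκ : 0 < κ) (b : ℕ → ℂ)
    (hb : ∀ n : ℕ, ‖b n‖ ≤ n.divisors.card) : ContinuousOn (cTH k κ b) (Ioi 0) := by
  unfold cTH
  exact Complex.continuous_conj.comp_continuousOn (sTH_cont k κ hκ b hb)

theorem cTH_top (k : ℕ) (κ : ℝ) (hκ : 0 < κ) (b : ℕ → ℂ)
    (hb : ∀ n : ℕ, ‖b n‖ ≤ n.divisors.card)
    (r : ℝ) : (fun x => cTH k κ b x - 0) =O[atTop] (fun x : ℝ => x ^ r) := by
  refine IsBigO.trans (IsBigO.of_bound 1 (Eventually.of_forall fun x => ?_))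
    (sTH_top k κ hκ b hb r)
  rw [one_mul, sub_zero, sub_zero]
  unfold cTH
  rw [RCLike.norm_conj]

/-- the FE pair -/
noncomputable def PP (k : ℕ) (κ : ℝ) (b : ℕ → ℂ) (w : ℂ) (H : Thk k κ b w) : WeakFEPair ℂ where
  f := sTH k κ b
  g := cTH k κ b
  k := (k : ℝ) + 1
  ε := w
  f₀ := 0
  g₀ := 0
  hf_int := (sTH_cont k κ (by linarith [H.k1]) b H.bd).locallyIntegrableOn measurableSet_Ioi
  hg_int := (cTH_cont k κ (by linarith [H.k1]) b H.bd).locallyIntegrableOn measurableSet_Ioi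
  hk := by positivity
  hε := by
    intro h
    have := H.w1
    rw [h, norm_zero] at this
    exact zero_ne_one this
  h_feq := by
    intro x hx
    have hx' : (0 : ℝ) < x := hx
    have h := H.fe x hx'
    unfold cTH sTH
    rw [show (1 / x) / κ = 1 / (κ * x) by
      rw [div_div, mul_comm x]]
    rw [h, smul_eq_mul]
    congr 2
    have e : ((k : ℝ) + 1) = ((k + 1 : ℕ) : ℝ) := by push_cast; ring
    rw [e, Real.rpow_natCast]
    push_cast
    rfl
  hf_top := sTH_top k κ (by linarith [H.k1]) b H.bd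
  hg_top := cTH_top k κ (by linarith [H.k1]) b H.bd

theorem PP_strong (k : ℕ) (κ : ℝ) (b : ℕ → ℂ) (w : ℂ) (H : Thk k κ b w) :
    IsStrongFEPair (PP k κ b w H) where
  hf₀ := rfl
  hg₀ := rfl

theorem LL_eq (k : ℕ) (κ : ℝ) (b : ℕ → ℂ) (w : ℂ) (H : Thk k κ b w) (s : ℂ) :
    LLk k κ b s = (PP k κ b w H).Λ (s + k / 2) := by
  rw [(PP_strong k κ b w H).Λ_eq]
  rfl

theorem LL_scale (k : ℕ) (κ : ℝ) (hκ : 0 < κ) (b : ℕ → ℂ) (s : ℂ) :
    LLk k κ b s = (κ : ℂ) ^ (s + k / 2) * mellin (THk k b) (s + k / 2) := by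
  unfold LLk
  have h1 := mellin_comp_mul_left (THk k b) (s + k / 2) (a := κ⁻¹) (inv_pos.mpr hκ)
  have h2 : (fun x : ℝ => THk k b (x / κ)) = fun x : ℝ => THk k b (κ⁻¹ * x) := by
    funext x; rw [div_eq_inv_mul]
  rw [h2, h1, smul_eq_mul]
  congr 1
  rw [Complex.ofReal_inv, Complex.inv_cpow _ _, Complex.cpow_neg, inv_inv]
  rw [Complex.arg_ofReal_of_nonneg hκ.le]
  exact Real.pi_pos.ne

end L1

theorem LL_entire (k : ℕ) (κ : ℝ) (b : ℕ → ℂ) (w : ℂ) (H : Thk k κ b w) :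
    Differentiable ℂ (LLk k κ b) := by
  have : LLk k κ b = fun s => (L1.PP k κ b w H).Λ (s + k / 2) := by
    funext s; exact L1.LL_eq k κ b w H s
  rw [this]
  exact (L1.PP_strong k κ b w H).differentiable_Λ.comp (by fun_prop)

theorem LL_fe (k : ℕ) (κ : ℝ) (b : ℕ → ℂ) (w : ℂ) (H : Thk k κ b w) (s : ℂ) :
    LLk k κ b (1 - s) = w * (starRingEnd ℂ) (LLk k κ b ((starRingEnd ℂ) s)) := by
  rw [L1.LL_eq k κ b w H]
  have h1 := (L1.PP k κ b w H).functional_equation (s + k / 2)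
  have h2 : (((L1.PP k κ b w H).k : ℝ) : ℂ) - (s + k / 2) = 1 - s + k / 2 := by
    change (((k : ℝ) + 1 : ℝ) : ℂ) - (s + k / 2) = 1 - s + k / 2
    push_cast; ring
  rw [h2] at h1
  rw [h1, (L1.PP_strong k κ b w H).symm_Λ_eq, smul_eq_mul]
  have h3 : mellin (L1.PP k κ b w H).g (s + k / 2) =
      (starRingEnd ℂ) (LLk k κ b ((starRingEnd ℂ) s)) := by
    have h4 := mellin_conj (L1.sTH k κ b) ((starRingEnd ℂ) (s + k / 2))
    rw [Complex.conj_conj] at h4
    have h5 : (starRingEnd ℂ) (s + k / 2) = (starRingEnd ℂ) s + k / 2 := by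
      rw [map_add, map_div₀, map_natCast, map_ofNat]
    rw [h5] at h4
    exact h4
  rw [h3]
  rfl

theorem FF_eq (k : ℕ) (κ : ℝ) (hκ : 1 ≤ κ) (b : ℕ → ℂ) (s : ℂ) :
    FFk k b s = (Complex.Gamma (s + k / 2))⁻¹ *
      ((κ / Real.pi : ℝ) : ℂ) ^ (-(s + k / 2)) * LLk k κ b s := by
  have hκ0 : 0 < κ := by linarith
  rw [L1.LL_scale k κ hκ0]
  unfold FFk
  have h0 : (κ : ℂ) ≠ 0 := by exact_mod_cast hκ0.ne'
  have h3 : ((κ / Real.pi : ℝ) : ℂ) ^ (-(s + k / 2)) =
      (κ : ℂ) ^ (-(s + k / 2)) * (Real.pi : ℂ) ^ (s + k / 2) := by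
    rw [div_eq_mul_inv, Complex.ofReal_mul,
      Complex.mul_cpow_ofReal_nonneg hκ0.le (inv_pos.mpr Real.pi_pos).le]
    congr 1
    rw [Complex.ofReal_inv, Complex.inv_cpow, Complex.cpow_neg, inv_inv]
    rw [Complex.arg_ofReal_of_nonneg Real.pi_pos.le]
    exact Real.pi_pos.ne
  rw [h3, Complex.cpow_neg]
  have h4 : (κ : ℂ) ^ (s + k / 2) ≠ 0 := by
    rw [Complex.cpow_ne_zero_iff]
    left; exact h0
  generalize (κ : ℂ) ^ (s + k / 2) = X at h4 ⊢
  generalize mellin (THk k b) (s + k / 2) = M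
  generalize (Complex.Gamma (s + k / 2))⁻¹ = G
  generalize (Real.pi : ℂ) ^ (s + k / 2) = P
  field_simp

theorem FF_entire (k : ℕ) (κ : ℝ) (b : ℕ → ℂ) (w : ℂ) (H : Thk k κ b w) :
    Differentiable ℂ (FFk k b) := by
  have hκ0 : 0 < κ := by linarith [H.k1]
  have h : FFk k b = fun s => (Complex.Gamma (s + k / 2))⁻¹ *
      ((κ / Real.pi : ℝ) : ℂ) ^ (-(s + k / 2)) * LLk k κ b s := by
    funext s; exact FF_eq k κ H.k1 b s
  rw [h]
  have h0 : ((κ / Real.pi : ℝ) : ℂ) ≠ 0 := by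
    exact_mod_cast (div_pos hκ0 Real.pi_pos).ne'
  have hG : Differentiable ℂ (fun s : ℂ => (Complex.Gamma (s + k / 2))⁻¹) :=
    Complex.differentiable_one_div_Gamma.comp (by fun_prop)
  have hc : Differentiable ℂ (fun s : ℂ =>
      ((κ / Real.pi : ℝ) : ℂ) ^ (-(s + k / 2))) := by
    intro s
    exact (DifferentiableAt.const_cpow (by fun_prop) (Or.inl h0))
  exact (hG.mul hc).mul (LL_entire k κ b w H)

namespace L1

theorem sqrt_pow (k : ℕ) {n : ℕ} (h : 0 < n) : Real.sqrt n ^ k = (n : ℝ) ^ ((k : ℝ) / 2) := by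
  have hn : (0 : ℝ) ≤ n := Nat.cast_nonneg n
  rw [Real.sqrt_eq_rpow, ← Real.rpow_natCast, ← Real.rpow_mul hn]
  congr 1
  ring

theorem summ_div (k : ℕ) {σ : ℝ} (hσ : 1 < σ) :
    Summable (fun n : ℕ => db k n / (n : ℝ) ^ (σ + k / 2)) := by
  have h1 : LSeriesSummable 1 (σ : ℂ) := LSeriesSummable_one_iff.mpr (by simpa using hσ)
  have h2 := h1.convolution h1
  have h3 := h2.norm
  refine Summable.of_nonneg_of_le (fun n => div_nonneg (db_nonneg k n) (by positivity))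
    (fun n => ?_) h3
  rcases Nat.eq_zero_or_pos n with h | h
  · subst h
    simp [db]
  rw [LSeries.term_of_ne_zero h.ne', LSeries.convolution_def, norm_div,
    Complex.norm_natCast_cpow_of_pos h, Complex.ofReal_re]
  have hn : (0 : ℝ) < n := by exact_mod_cast h
  have h4 : ‖∑ p ∈ n.divisorsAntidiagonal, (1 : ℕ → ℂ) p.1 * (1 : ℕ → ℂ) p.2‖ =
      n.divisors.card := by
    simp only [Pi.one_apply, mul_one, Finset.sum_const, nsmul_eq_mul]
    rw [Complex.norm_natCast, ← Nat.map_div_right_divisors, Finset.card_map]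
  rw [h4]
  have h6 : (n : ℝ) ^ (σ + k / 2) = (n : ℝ) ^ σ * Real.sqrt n ^ k := by
    rw [Real.rpow_add hn, sqrt_pow k h]
  have h8 : 0 < Real.sqrt n ^ k := pow_pos (Real.sqrt_pos.mpr hn) k
  have h7 : 0 < (n : ℝ) ^ σ := by positivity
  rw [h6, db, mul_div_mul_right _ _ h8.ne']

end L1

theorem FF_series (k : ℕ) (b : ℕ → ℂ) (h0 : b 0 = 0) (hb : ∀ n, ‖b n‖ ≤ n.divisors.card) (s : ℂ)
    (hs : 1 < s.re) : HasSum (fun n : ℕ => b n * (n : ℂ) ^ (-s)) (FFk k b s) := by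
  have hre : (s + k / 2).re = s.re + k / 2 := by
    have : (s + k / 2 : ℂ) = s + ((k / 2 : ℝ) : ℂ) := by push_cast; ring
    rw [this, Complex.add_re, Complex.ofReal_re]
  have hk0 : (0 : ℝ) ≤ k := Nat.cast_nonneg k
  have hpos : 0 < (s + k / 2).re := by rw [hre]; linarith
  have h1 := hasSum_mellin_pi_mul (a := L1.cf k b) (q := fun n : ℕ => (n : ℝ)) (F := THk k b)
    (s := s + k / 2) (fun n => by
      rcases Nat.eq_zero_or_pos n with h | h
      · left; rw [h, L1.cf_zero k b h0]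
      · right; exact_mod_cast h) hpos (fun t ht => L1.TH_hasSum k b hb ht) (by
      rw [hre]
      refine Summable.of_nonneg_of_le (fun n => by positivity) (fun n => ?_) (L1.summ_div k hs)
      exact div_le_div_of_nonneg_right (L1.cf_norm_le k b hb n) (by positivity))
  have h2 := h1.mul_left ((Real.pi : ℂ) ^ (s + k / 2) * (Complex.Gamma (s + k / 2))⁻¹)
  have h3 : (Real.pi : ℂ) ^ (s + k / 2) * (Complex.Gamma (s + k / 2))⁻¹ *
      mellin (THk k b) (s + k / 2) = FFk k b s := rfl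
  rw [h3] at h2
  have h4 : (fun n : ℕ => b n * (n : ℂ) ^ (-s)) =
      fun n : ℕ => (Real.pi : ℂ) ^ (s + k / 2) * (Complex.Gamma (s + k / 2))⁻¹ *
        ((Real.pi : ℂ) ^ (-(s + k / 2)) * Complex.Gamma (s + k / 2) * L1.cf k b n /
          ((n : ℝ) : ℂ) ^ (s + k / 2)) := by
    funext n
    rcases Nat.eq_zero_or_pos n with h | h
    · subst h
      rw [L1.cf_zero k b h0, h0]; simp
    · have hG : Complex.Gamma (s + k / 2) ≠ 0 := Complex.Gamma_ne_zero_of_re_pos hpos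
      have hP : (Real.pi : ℂ) ^ (s + k / 2) ≠ 0 := by
        rw [Complex.cpow_ne_zero_iff]; left
        exact_mod_cast Real.pi_ne_zero
      have hn : (0 : ℝ) < n := by exact_mod_cast h
      have hn0 : (n : ℂ) ≠ 0 := by exact_mod_cast h.ne'
      have hsq : ((Real.sqrt n : ℝ) : ℂ) ^ k = (n : ℂ) ^ (k / 2 : ℂ) := by
        rw [← Complex.ofReal_pow, L1.sqrt_pow k h, Complex.ofReal_cpow hn.le]
        push_cast
        rfl
      have hN : ((n : ℂ) ^ (s + k / 2)) = (n : ℂ) ^ s * (n : ℂ) ^ (k / 2 : ℂ) :=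
        Complex.cpow_add _ _ hn0
      have hs0 : (n : ℂ) ^ s ≠ 0 := by
        rw [Complex.cpow_ne_zero_iff]; left; exact hn0
      have hh0 : (n : ℂ) ^ (k / 2 : ℂ) ≠ 0 := by
        rw [Complex.cpow_ne_zero_iff]; left; exact hn0
      rw [Complex.cpow_neg, Complex.cpow_neg, Complex.ofReal_natCast]
      unfold L1.cf
      rw [hsq, hN]
      generalize (Real.pi : ℂ) ^ (s + k / 2) = P at hP ⊢
      generalize Complex.Gamma (s + k / 2) = G at hG ⊢
      generalize ((n : ℂ) ^ s) = N at hs0 ⊢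
      generalize ((n : ℂ) ^ (k / 2 : ℂ)) = M at hh0 ⊢
      field_simp
  rw [h4]
  exact h2

/-- crude bound in vertical strips, as input for Phragmen-Lindelöf -/
theorem LL_bdd (k : ℕ) (κ : ℝ) (b : ℕ → ℂ) (w : ℂ) (H : Thk k κ b w) (a c : ℝ) :
    ∃ C : ℝ, ∀ s : ℂ, a ≤ s.re → s.re ≤ c → ‖LLk k κ b s‖ ≤ C := by
  have hconv : ∀ z : ℂ, MellinConvergent (L1.sTH k κ b) z := fun z =>
    ((L1.PP_strong k κ b w H).hasMellin z).1
  have hint : ∀ c : ℝ, IntegrableOn (fun t : ℝ => t ^ (c + k / 2 - 1) * ‖L1.sTH k κ b t‖)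
      (Ioi 0) := by
    intro c
    have h1 : IntegrableOn (fun t : ℝ => ‖(t : ℂ) ^ (((c + k / 2 : ℝ) : ℂ) - 1) • L1.sTH k κ b t‖)
        (Ioi 0) := (hconv ((c + k / 2 : ℝ) : ℂ)).norm
    refine h1.congr_fun ?_ measurableSet_Ioi
    intro t ht
    have ht' : (0 : ℝ) < t := ht
    simp only [norm_smul]
    rw [Complex.norm_cpow_eq_rpow_re_of_pos ht']
    congr 2
  refine ⟨∫ t in Ioi (0 : ℝ), (t ^ (a + k / 2 - 1) * ‖L1.sTH k κ b t‖ +
    t ^ (c + k / 2 - 1) * ‖L1.sTH k κ b t‖),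
    fun s h1 h2 => ?_⟩
  unfold LLk mellin
  refine (norm_integral_le_integral_norm _).trans ?_
  refine setIntegral_mono_on ?_ ((hint a).add (hint c)) measurableSet_Ioi (fun t ht => ?_)
  · exact (hconv (s + k / 2)).norm
  have ht' : (0 : ℝ) < t := ht
  rw [norm_smul, Complex.norm_cpow_eq_rpow_re_of_pos ht', ← add_mul]
  refine mul_le_mul_of_nonneg_right ?_ (norm_nonneg _)
  have h3 : (s + k / 2 - 1 : ℂ).re = s.re + k / 2 - 1 := by
    have : (s + k / 2 - 1 : ℂ) = s + ((k / 2 - 1 : ℝ) : ℂ) := by push_cast; ring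
    rw [this, Complex.add_re, Complex.ofReal_re]
    ring
  rw [h3]
  rcases le_total 1 t with h4 | h4
  · have := Real.rpow_le_rpow_of_exponent_le h4
      (show s.re + k / 2 - 1 ≤ c + k / 2 - 1 by linarith)
    have h5 : 0 ≤ t ^ (a + k / 2 - 1) := by positivity
    linarith
  · have := Real.rpow_le_rpow_of_exponent_ge ht' h4
      (show a + k / 2 - 1 ≤ s.re + k / 2 - 1 by linarith)
    have h5 : 0 ≤ t ^ (c + k / 2 - 1) := by positivity
    linarith

end Pool.Agent.W354.PK
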