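import Pool.Agent.W354.PK.PairK
import Pool.Agent.H304R3.HK.GrowthH

set_option autoImplicit false

/-!
Growth of the L-function of infinity type `k`, uniform in the conductor and in `k`
(adapted from `Pool.Agent.H304R3.HK.GrowthH`).
-/

open Finset Filter Topology MeasureTheory Set Asymptotics

namespace Pool.Agent.W354.PK

open Pool.Agent.H304R2.EC (inv_Gamma_le sp3_ne)
open Pool.Agent.H304R3.HK.L2x (C0 C0_nonneg summ_card)

namespace L2x

theorem FF_le_C0 (k : ℕ) (b : ℕ → ℂ) (h0 : b 0 = 0) (hb : ∀ n, ‖b n‖ ≤ n.divisors.card) (s : ℂ)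
    (hs : 3 / 2 ≤ s.re) : ‖FFk k b s‖ ≤ C0 := by
  have h1 := FF_series k b h0 hb s (by linarith)
  refine tsum_of_norm_bounded (g := fun n : ℕ => (n.divisors.card : ℝ) / (n : ℝ) ^ ((3 : ℝ) / 2))
    (f := fun n : ℕ => b n * (n : ℂ) ^ (-s))
    (summ_card (by norm_num)).hasSum (fun n => ?_) |> fun h => by rwa [h1.tsum_eq] at h
  rcases Nat.eq_zero_or_pos n with h | h
  · subst h
    rw [h0]; simp
  have hn : (1 : ℝ) ≤ n := by exact_mod_cast h
  rw [norm_mul, Complex.norm_natCast_cpow_of_pos h, Complex.neg_re,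
    Real.rpow_neg (by positivity), ← div_eq_mul_inv]
  exact div_le_div₀ (Nat.cast_nonneg _) (hb n) (by positivity)
    (Real.rpow_le_rpow_of_exponent_le hn (by linarith))

theorem re_k (k : ℕ) (s : ℂ) : (s + k / 2).re = s.re + k / 2 := by
  have : (s + k / 2 : ℂ) = s + ((k / 2 : ℝ) : ℂ) := by push_cast; ring
  rw [this, Complex.add_re, Complex.ofReal_re]

theorem im_k (k : ℕ) (s : ℂ) : (s + k / 2).im = s.im := by
  have : (s + k / 2 : ℂ) = s + ((k / 2 : ℝ) : ℂ) := by push_cast; ring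
  rw [this, Complex.add_im, Complex.ofReal_im, add_zero]

/-- the reciprocal Gamma function far to the right -/
theorem inv_Gamma_shift (z : ℂ) (h1 : 1 ≤ |z.im|) (m : ℕ) :
    ‖(Complex.Gamma (z + m))⁻¹‖ ≤ ‖(Complex.Gamma z)⁻¹‖ := by
  induction m with
  | zero => simp
  | succ m ih =>
    refine le_trans ?_ ih
    have him : (z + m).im = z.im := by simp
    have hne : z + m ≠ 0 := by
      intro h
      have := congrArg Complex.im h
      rw [him, Complex.zero_im] at this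
      rw [this, abs_zero] at h1
      linarith
    have e : z + ((m + 1 : ℕ) : ℂ) = z + m + 1 := by push_cast; ring
    rw [e, Complex.Gamma_add_one _ hne, mul_inv, norm_mul]
    have h2 : ‖(z + m)⁻¹‖ ≤ 1 := by
      rw [norm_inv]
      apply inv_le_one_of_one_le₀
      have := Complex.abs_im_le_norm (z + m)
      rw [him] at this
      linarith
    exact mul_le_of_le_one_left (norm_nonneg _) h2

theorem inv_Gamma_k (k : ℕ) : ∃ M : ℝ, 0 ≤ M ∧ ∀ s : ℂ, -1 / 2 ≤ s.re → s.re ≤ 3 / 2 →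
    1 ≤ |s.im| → 1 ≤ k → ‖(Complex.Gamma (s + k / 2))⁻¹‖ ≤ M * Real.exp (Real.pi * |s.im|) := by
  obtain ⟨M, hM0, hM⟩ := inv_Gamma_le
  refine ⟨M * 4, by positivity, fun s h1 h2 h3 hk => ?_⟩
  -- reduce to the real part in `[0, 2]`
  have hexp := Real.exp_pos (Real.pi * |s.im|)
  rcases Nat.even_or_odd' k with ⟨m, hm | hm⟩
  · -- k = 2 m, m ≥ 1
    have hm1 : 1 ≤ m := by omega
    have e : (s + k / 2 : ℂ) = (s + 1) + ((m - 1 : ℕ) : ℂ) := by
      rw [hm, Nat.cast_sub hm1]; push_cast; ring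
    rw [e]
    have him : (s + 1).im = s.im := by simp
    have h4 := inv_Gamma_shift (s + 1) (by rw [him]; exact h3) (m - 1)
    refine h4.trans ?_
    -- `Γ(s+1)` : real part in `[1/2, 5/2]`
    by_cases h5 : s.re ≤ 1
    · have h6 := hM (s + 1) (by simp; linarith) (by simp; linarith) (by rw [him]; exact h3)
      rw [him] at h6
      nlinarith
    · push Not at h5
      have h7 := inv_Gamma_shift s h3 1
      rw [Nat.cast_one] at h7
      have h8 := hM s (by linarith) (by linarith) h3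
      nlinarith
  · have e : (s + k / 2 : ℂ) = (s + 1 / 2) + (m : ℂ) := by
      rw [hm]; push_cast; ring
    rw [e]
    have him : (s + 1 / 2).im = s.im := by simp
    have hre : (s + 1 / 2).re = s.re + 1 / 2 := by simp
    have h4 := inv_Gamma_shift (s + 1 / 2) (by rw [him]; exact h3) m
    refine h4.trans ?_
    have h6 := hM (s + 1 / 2) (by rw [hre]; linarith) (by rw [hre]; linarith) (by rw [him]; exact h3)
    rw [him] at h6
    nlinarith

/-- on the line `Re s = -1/2` -/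
theorem FF_left_edge (k : ℕ) (κ : ℝ) (b : ℕ → ℂ) (w : ℂ) (H : Thk k κ b w) (s : ℂ)
    (hs : s.re = -1 / 2) :
    ‖FFk k b s‖ ≤ C0 * κ ^ 2 * (1 + k + |s.im|) ^ 2 := by
  have hκ1 : (1 : ℝ) ≤ κ := H.k1
  have hκ0 : (0 : ℝ) < κ := by linarith
  have hk1 : (1 : ℝ) ≤ k := by exact_mod_cast H.k0
  have hC := C0_nonneg
  set t : ℝ := s.im with ht
  set z : ℂ := s + k / 2 with hz
  have hzre : z.re = ((k : ℝ) - 1) / 2 := by rw [hz, re_k, hs]; ring
  have hzim : z.im = t := by rw [hz, im_k]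
  by_cases h0 : z = 0
  · have : FFk k b s = 0 := by
      rw [FF_eq k κ hκ1, ← hz, h0]
      simp [Complex.Gamma_zero]
    rw [this, norm_zero]
    positivity
  set Q : ℝ := κ / Real.pi with hQ
  have hQpos : 0 < Q := div_pos hκ0 Real.pi_pos
  have hQq : Q ≤ κ := by
    rw [hQ, div_le_iff₀ Real.pi_pos]
    nlinarith [Real.pi_gt_three]
  set s' : ℂ := (starRingEnd ℂ) (1 - s) with hs'
  have hs're : s'.re = 3 / 2 := by
    rw [hs', Complex.conj_re, Complex.sub_re, hs]; norm_num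
  have hs'im : s'.im = t := by
    rw [hs', Complex.conj_im, Complex.sub_im]
    simp [ht]
  have hs'z : s' + k / 2 = z + 1 + 1 := by
    apply Complex.ext
    · rw [re_k, hs're]
      simp only [Complex.add_re, Complex.one_re, hzre]
      ring
    · rw [im_k, hs'im]
      simp only [Complex.add_im, Complex.one_im, hzim]
      ring
  have h1 : ‖LLk k κ b s‖ = ‖LLk k κ b s'‖ := by
    have h := LL_fe k κ b w H (1 - s)
    rw [sub_sub_cancel] at h
    rw [h, norm_mul, H.w1, one_mul, RCLike.norm_conj]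
  have hG0 : Complex.Gamma (s' + k / 2) ≠ 0 := by
    apply Complex.Gamma_ne_zero_of_re_pos
    rw [re_k, hs're]; positivity
  have hQ0 : (Q : ℂ) ≠ 0 := by exact_mod_cast hQpos.ne'
  have h2 : LLk k κ b s' = Complex.Gamma (s' + k / 2) * (Q : ℂ) ^ (s' + k / 2) * FFk k b s' := by
    rw [FF_eq k κ hκ1, ← hQ, Complex.cpow_neg]
    have h3 : (Q : ℂ) ^ (s' + k / 2) ≠ 0 := by
      rw [Complex.cpow_ne_zero_iff]; left; exact hQ0
    generalize (Q : ℂ) ^ (s' + k / 2) = X at h3 ⊢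
    generalize Complex.Gamma (s' + k / 2) = G at hG0 ⊢
    field_simp
  have h4 : ‖FFk k b s'‖ ≤ C0 := FF_le_C0 k b H.b0 H.bd s' (by rw [hs're])
  have h5 : ‖(Q : ℂ) ^ (-z)‖ * ‖(Q : ℂ) ^ (s' + k / 2)‖ = Q ^ 2 := by
    rw [Complex.norm_cpow_eq_rpow_re_of_pos hQpos, Complex.norm_cpow_eq_rpow_re_of_pos hQpos,
      ← Real.rpow_add hQpos, ← Real.rpow_ofNat]
    congr 1
    rw [Complex.neg_re, hzre, re_k, hs're]
    ring
  have hGz : Complex.Gamma z ≠ 0 := by
    rcases eq_or_ne t 0 with h | h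
    · apply Complex.Gamma_ne_zero_of_re_pos
      rw [hzre]
      by_contra hcon
      push Not at hcon
      apply h0
      apply Complex.ext
      · rw [hzre, Complex.zero_re]; linarith
      · rw [hzim, h, Complex.zero_im]
    · apply Complex.Gamma_ne_zero
      intro m hm
      apply h
      rw [← hzim, hm]
      simp
  have hz1 : z + 1 ≠ 0 := by
    intro h
    have := congrArg Complex.re h
    rw [Complex.add_re, hzre, Complex.one_re, Complex.zero_re] at this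
    linarith
  have h7 : ‖(Complex.Gamma z)⁻¹‖ * ‖Complex.Gamma (s' + k / 2)‖ ≤ (1 + k + |t|) ^ 2 := by
    rw [hs'z, Complex.Gamma_add_one _ hz1, Complex.Gamma_add_one _ h0]
    have hGt : ‖Complex.Gamma z‖ ≠ 0 := by rwa [norm_ne_zero_iff]
    have e6 : ‖z‖ ≤ k + |t| := by
      have := Complex.norm_le_abs_re_add_abs_im z
      rw [hzre, hzim, abs_of_nonneg (by linarith)] at this
      linarith
    have e5 : ‖z + 1‖ ≤ 1 + k + |t| := by
      refine (norm_add_le _ _).trans ?_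
      rw [norm_one]
      linarith
    rw [norm_mul, norm_mul, norm_inv]
    have e7 : ‖Complex.Gamma z‖⁻¹ * (‖z + 1‖ * (‖z‖ * ‖Complex.Gamma z‖)) = ‖z + 1‖ * ‖z‖ := by
      field_simp
    rw [e7, sq]
    exact mul_le_mul e5 (by linarith) (norm_nonneg _) (by positivity)
  rw [FF_eq k κ hκ1, ← hQ, ← hz, norm_mul, norm_mul, h1, h2, norm_mul, norm_mul]
  calc ‖(Complex.Gamma z)⁻¹‖ * ‖(Q : ℂ) ^ (-z)‖ * (‖Complex.Gamma (s' + k / 2)‖ *
        ‖(Q : ℂ) ^ (s' + k / 2)‖ * ‖FFk k b s'‖)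
      = (‖(Complex.Gamma z)⁻¹‖ * ‖Complex.Gamma (s' + k / 2)‖) *
        (‖(Q : ℂ) ^ (-z)‖ * ‖(Q : ℂ) ^ (s' + k / 2)‖) * ‖FFk k b s'‖ := by ring
    _ ≤ (1 + k + |t|) ^ 2 * κ ^ 2 * C0 := by rw [h5]; gcongr
    _ = _ := by ring

/-- the auxiliary function -/
noncomputable def HH (k : ℕ) (κ : ℝ) (b : ℕ → ℂ) (s : ℂ) : ℂ :=
  FFk k b s * (κ : ℂ) ^ (s - 3 / 2) * ((s + (3 + k)) ^ 2)⁻¹

theorem HH_bound (k : ℕ) (κ : ℝ) (b : ℕ → ℂ) (w : ℂ) (H : Thk k κ b w) (s : ℂ)
    (h1 : -1 / 2 ≤ s.re) (h2 : s.re ≤ 3 / 2) : ‖HH k κ b s‖ ≤ 2 * C0 := by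
  have hq1 : (1 : ℝ) ≤ κ := H.k1
  have hq0 : (0 : ℝ) < κ := by linarith
  have hk0 : (0 : ℝ) ≤ k := Nat.cast_nonneg k
  have hqC : (κ : ℂ) ≠ 0 := by exact_mod_cast hq0.ne'
  have hC := C0_nonneg
  have hqn : ∀ z : ℂ, ‖(κ : ℂ) ^ (z - 3 / 2)‖ = κ ^ (z.re - 3 / 2) := by
    intro z
    rw [Complex.norm_cpow_eq_rpow_re_of_pos hq0]
    congr 1
    rw [Complex.sub_re]; norm_num
  have hs3 : ∀ z : ℂ, ‖((z + (3 + k)) ^ 2)⁻¹‖ = (‖z + (3 + k)‖ ^ 2)⁻¹ := by
    intro z; rw [norm_inv, norm_pow]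
  have hre3 : ∀ z : ℂ, (z + (3 + k)).re = z.re + (3 + k) := by
    intro z; simp
  have him3 : ∀ z : ℂ, (z + (3 + k)).im = z.im := by
    intro z; simp
  refine PhragmenLindelof.vertical_strip (f := HH k κ b) (a := -1 / 2) (b := 3 / 2) ?_ ?_ ?_ ?_
    h1 h2
  · -- differentiability
    have hd : DifferentiableOn ℂ (HH k κ b) {z : ℂ | -3 < z.re} := by
      intro z hz
      have hz3 : (z + (3 + k)) ^ 2 ≠ 0 := by
        apply pow_ne_zero
        intro h
        have := congrArg Complex.re h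
        rw [hre3, Complex.zero_re] at this
        have hz' : -3 < z.re := hz
        linarith
      apply DifferentiableAt.differentiableWithinAt
      unfold HH
      refine (((FF_entire k κ b w H) z).mul ?_).mul ?_
      · exact DifferentiableAt.const_cpow (by fun_prop) (Or.inl hqC)
      · exact DifferentiableAt.inv (by fun_prop) hz3
    apply DifferentiableOn.diffContOnCl
    apply hd.mono
    refine (Complex.continuous_re.closure_preimage_subset _).trans ?_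
    intro z hz
    have hz' : z.re ∈ closure (Ioo (-1 / 2 : ℝ) (3 / 2)) := hz
    rw [closure_Ioo (by norm_num)] at hz'
    have := hz'.1
    change -3 < z.re
    linarith
  · -- growth
    obtain ⟨M, hM0, hM⟩ := inv_Gamma_k k
    obtain ⟨C, hC'⟩ := LL_bdd k κ b w H (-1 / 2) (3 / 2)
    set Q : ℝ := κ / Real.pi with hQ
    have hQpos : 0 < Q := div_pos hq0 Real.pi_pos
    refine ⟨1, ?_, Real.pi, ?_⟩
    · rw [show ((3 : ℝ) / 2 - -1 / 2) = 2 by norm_num]
      linarith [Real.pi_gt_three]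
    refine IsBigO.of_bound (M * (1 + Q ^ (-((k : ℝ) / 2 + 3 / 2))) * C) ?_
    rw [eventually_inf_principal]
    have hev : ∀ᶠ z : ℂ in comap (abs ∘ Complex.im) atTop, 1 ≤ |z.im| := by
      have := (eventually_ge_atTop (1 : ℝ)).comap (abs ∘ Complex.im)
      exact this
    filter_upwards [hev] with z hz1 hz2
    have hz2' : z.re ∈ Ioo (-1 / 2 : ℝ) (3 / 2) := hz2
    have e1 := hM z hz2'.1.le hz2'.2.le hz1 H.k0
    have e2 := hC' z hz2'.1.le hz2'.2.le
    have hk1 : (1 : ℝ) ≤ k := by exact_mod_cast H.k0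
    have e3 : ‖(Q : ℂ) ^ (-(z + k / 2))‖ ≤ 1 + Q ^ (-((k : ℝ) / 2 + 3 / 2)) := by
      rw [Complex.norm_cpow_eq_rpow_re_of_pos hQpos, Complex.neg_re, re_k]
      rcases le_total 1 Q with h | h
      · have := Real.rpow_le_one_of_one_le_of_nonpos h
          (show -(z.re + k / 2) ≤ 0 by linarith [hz2'.1])
        have h5 : 0 ≤ Q ^ (-((k : ℝ) / 2 + 3 / 2)) := by positivity
        linarith
      · have := Real.rpow_le_rpow_of_exponent_ge hQpos h
          (show -((k : ℝ) / 2 + 3 / 2) ≤ -(z.re + k / 2) by linarith [hz2'.2])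
        linarith
    have e4 : κ ^ (z.re - 3 / 2) ≤ 1 :=
      Real.rpow_le_one_of_one_le_of_nonpos hq1 (by linarith [hz2'.2])
    have e5 : (‖z + (3 + k)‖ ^ 2)⁻¹ ≤ 1 := by
      apply inv_le_one_of_one_le₀
      have h5 := Complex.abs_re_le_norm (z + (3 + k))
      rw [hre3, abs_of_pos (by linarith [hz2'.1])] at h5
      nlinarith [hz2'.1]
    have hC0' : 0 ≤ C := (norm_nonneg _).trans e2
    unfold HH
    rw [norm_mul, norm_mul, hqn, hs3, FF_eq k κ hq1, ← hQ, norm_mul, norm_mul, Real.norm_eq_abs,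
      abs_of_pos (Real.exp_pos _)]
    have e6 : Real.exp (Real.pi * |z.im|) ≤ Real.exp (Real.pi * Real.exp (1 * |z.im|)) := by
      apply Real.exp_le_exp.mpr
      apply mul_le_mul_of_nonneg_left _ Real.pi_pos.le
      rw [one_mul]
      linarith [Real.add_one_le_exp |z.im|]
    have hE := (Real.exp_pos (Real.pi * |z.im|)).le
    calc ‖(Complex.Gamma (z + k / 2))⁻¹‖ * ‖(Q : ℂ) ^ (-(z + k / 2))‖ * ‖LLk k κ b z‖ *
          κ ^ (z.re - 3 / 2) * (‖z + (3 + k)‖ ^ 2)⁻¹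
        ≤ (M * Real.exp (Real.pi * |z.im|)) * (1 + Q ^ (-((k : ℝ) / 2 + 3 / 2))) * C * 1 * 1 := by
          gcongr
      _ = M * (1 + Q ^ (-((k : ℝ) / 2 + 3 / 2))) * C * Real.exp (Real.pi * |z.im|) := by ring
      _ ≤ M * (1 + Q ^ (-((k : ℝ) / 2 + 3 / 2))) * C *
          Real.exp (Real.pi * Real.exp (1 * |z.im|)) := by
          apply mul_le_mul_of_nonneg_left e6
          positivity
  · intro z hz
    have e1 := FF_left_edge k κ b w H z hz
    unfold HH
    rw [norm_mul, norm_mul, hqn, hs3, hz]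
    have e2 : κ ^ ((-1 : ℝ) / 2 - 3 / 2) = (κ ^ 2)⁻¹ := by
      rw [show ((-1 : ℝ) / 2 - 3 / 2) = -((2 : ℕ) : ℝ) by norm_num, Real.rpow_neg hq0.le,
        Real.rpow_natCast]
    rw [e2]
    have e3 : (1 + k + |z.im|) ^ 2 ≤ 2 * ‖z + (3 + k)‖ ^ 2 := by
      rw [Complex.sq_norm, Complex.normSq_apply, hre3, him3, hz]
      have := sq_nonneg (1 + k - |z.im|)
      have h4 : |z.im| ^ 2 = z.im * z.im := by rw [sq_abs, sq]
      nlinarith
    have e4 : 0 < ‖z + (3 + k)‖ ^ 2 := by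
      have : z + (3 + k) ≠ 0 := by
        intro h
        have := congrArg Complex.re h
        rw [hre3, Complex.zero_re, hz] at this
        linarith
      positivity
    calc ‖FFk k b z‖ * (κ ^ 2)⁻¹ * (‖z + (3 + k)‖ ^ 2)⁻¹
        ≤ (C0 * κ ^ 2 * (1 + k + |z.im|) ^ 2) * (κ ^ 2)⁻¹ * (‖z + (3 + k)‖ ^ 2)⁻¹ := by gcongr
      _ = C0 * ((1 + k + |z.im|) ^ 2 * (‖z + (3 + k)‖ ^ 2)⁻¹) := by field_simp
      _ ≤ C0 * 2 := by
          apply mul_le_mul_of_nonneg_left _ hC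
          rw [← div_eq_mul_inv, div_le_iff₀ e4]
          exact e3
      _ = 2 * C0 := by ring
  · intro z hz
    have e1 := FF_le_C0 k b H.b0 H.bd z (by rw [hz])
    unfold HH
    rw [norm_mul, norm_mul, hqn, hs3, hz, sub_self, Real.rpow_zero, mul_one]
    have e4 : 1 ≤ ‖z + (3 + k)‖ ^ 2 := by
      have h5 := Complex.abs_re_le_norm (z + (3 + k))
      rw [hre3, hz, abs_of_pos (by positivity)] at h5
      nlinarith
    calc ‖FFk k b z‖ * (‖z + (3 + k)‖ ^ 2)⁻¹ ≤ C0 * 1 := by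
          apply mul_le_mul e1 (inv_le_one_of_one_le₀ e4) (by positivity) hC
      _ ≤ 2 * C0 := by linarith

end L2x

open L2x

theorem FF_growth : ∃ A : ℝ, 1 ≤ A ∧ ∀ (k : ℕ) (κ : ℝ) (b : ℕ → ℂ) (w : ℂ), Thk k κ b w →
    ∀ s : ℂ, (1 / 16 : ℝ) ≤ s.re → s.re ≤ 4 → 1 ≤ s.im →
      ‖FFk k b s‖ ≤ A * (κ * (k + s.im)) ^ A := by
  have hC := C0_nonneg
  refine ⟨2 + 100 * C0, by linarith, ?_⟩
  intro k κ b w H s h1 h2 h3
  have hq1 : (1 : ℝ) ≤ κ := H.k1
  have hq0 : (0 : ℝ) < κ := by linarith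
  have hk0 : (0 : ℝ) ≤ k := Nat.cast_nonneg k
  have hv1 : 1 ≤ k + s.im := by linarith
  have hqt : 1 ≤ κ * (k + s.im) := by nlinarith
  have hpow : (κ * (k + s.im)) ^ 2 ≤ (κ * (k + s.im)) ^ (2 + 100 * C0) := by
    rw [← Real.rpow_ofNat]
    exact Real.rpow_le_rpow_of_exponent_le hqt (by linarith)
  have hre3 : (s + (3 + k)).re = s.re + (3 + k) := by simp
  have him3 : (s + (3 + k)).im = s.im := by simp
  have key : ‖FFk k b s‖ ≤ 100 * C0 * (κ * (k + s.im)) ^ 2 := by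
    rcases le_total s.re (3 / 2) with h | h
    · have e1 := HH_bound k κ b w H s (by linarith) h
      unfold HH at e1
      rw [norm_mul, norm_mul, norm_inv, norm_pow,
        Complex.norm_cpow_eq_rpow_re_of_pos hq0] at e1
      have hre : (s - 3 / 2).re = s.re - 3 / 2 := by rw [Complex.sub_re]; norm_num
      rw [hre] at e1
      have e2 : 0 < ‖s + (3 + k)‖ ^ 2 := by
        have : s + (3 + k) ≠ 0 := by
          intro h
          have := congrArg Complex.re h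
          rw [hre3, Complex.zero_re] at this
          linarith
        positivity
      have e3 : ‖s + (3 + k)‖ ^ 2 ≤ 50 * (k + s.im) ^ 2 := by
        rw [Complex.sq_norm, Complex.normSq_apply, hre3, him3]
        nlinarith [mul_nonneg hk0 (by linarith : (0 : ℝ) ≤ s.im - 1)]
      have e4 : (κ ^ 2)⁻¹ ≤ κ ^ (s.re - 3 / 2) := by
        rw [← Real.rpow_natCast, ← Real.rpow_neg hq0.le]
        apply Real.rpow_le_rpow_of_exponent_le hq1
        push_cast
        linarith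
      have e5 : ‖FFk k b s‖ * (κ ^ 2)⁻¹ * (‖s + (3 + k)‖ ^ 2)⁻¹ ≤ 2 * C0 := by
        refine le_trans ?_ e1
        gcongr
      have e6 : ‖FFk k b s‖ ≤ 2 * C0 * (‖s + (3 + k)‖ ^ 2) * κ ^ 2 := by
        have hq2 : (0 : ℝ) < κ ^ 2 := by positivity
        have : ‖FFk k b s‖ = (‖FFk k b s‖ * (κ ^ 2)⁻¹ * (‖s + (3 + k)‖ ^ 2)⁻¹) *
            (‖s + (3 + k)‖ ^ 2) * κ ^ 2 := by
          have e2' := e2.ne'
          generalize ‖s + (3 + k)‖ ^ 2 = N at e2' ⊢
          field_simp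
        rw [this]
        gcongr
      calc ‖FFk k b s‖ ≤ 2 * C0 * (‖s + (3 + k)‖ ^ 2) * κ ^ 2 := e6
        _ ≤ 2 * C0 * (50 * (k + s.im) ^ 2) * κ ^ 2 := by gcongr
        _ = 100 * C0 * (κ * (k + s.im)) ^ 2 := by ring
    · have e1 := FF_le_C0 k b H.b0 H.bd s h
      have e2 : 1 ≤ (κ * (k + s.im)) ^ 2 := by nlinarith
      nlinarith
  calc ‖FFk k b s‖ ≤ 100 * C0 * (κ * (k + s.im)) ^ 2 := key
    _ ≤ (2 + 100 * C0) * (κ * (k + s.im)) ^ (2 + 100 * C0) := by
      apply mul_le_mul (by linarith) hpow (by positivity) (by positivity)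

end Pool.Agent.W354.PK
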