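import Pool.Agent.H370R2.DirGood

set_option autoImplicit false

/-!
Digamma function far to the right, uniformly: `ψ(z + m) = log (m + |Im z|) + O(1)`.
-/

open Complex Filter Topology

namespace Pool.Agent.W354.PK

open H370.DL (ne_neg_nat_of_im digamma_ext)

namespace DigK

theorem log_step (z : ℂ) (h0 : 0 ≤ z.re) (h1 : 1 ≤ ‖z‖) (him : z.im ≠ 0) :
    ‖log (z + 1) - log z - z⁻¹‖ ≤ 1 / ‖z‖ ^ 2 := by
  have hz : z ≠ 0 := by
    intro h; rw [h, norm_zero] at h1; linarith
  have hpos : 0 < ‖z‖ := by linarith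
  have hge : ∀ x : ℝ, 0 ≤ x → ‖z‖ ≤ ‖z + x‖ := by
    intro x hx
    apply le_of_sq_le_sq _ (norm_nonneg _)
    rw [Complex.sq_norm, Complex.sq_norm, Complex.normSq_apply, Complex.normSq_apply]
    simp only [add_re, ofReal_re, add_im, ofReal_im, add_zero]
    nlinarith
  have hsl : ∀ x : ℝ, 0 ≤ x → z + x ∈ slitPlane := by
    intro x hx
    right
    simpa using him
  have hd : ∀ x ∈ Set.Icc (0 : ℝ) 1, HasDerivWithinAt (fun x : ℝ => log (z + x) - x * z⁻¹)
      ((z + x)⁻¹ - z⁻¹) (Set.Icc 0 1) x := by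
    intro x hx
    have h2 : HasDerivAt (fun x : ℝ => (z + x : ℂ)) 1 x := by
      simpa using (Complex.ofRealCLM.hasDerivAt (x := x)).const_add z
    have h3 := h2.clog_real (hsl x hx.1)
    have h4 : HasDerivAt (fun x : ℝ => (x : ℂ) * z⁻¹) (1 * z⁻¹) x := by
      simpa using (Complex.ofRealCLM.hasDerivAt (x := x)).mul_const z⁻¹
    have h5 := h3.sub h4
    refine (h5.congr_deriv ?_).hasDerivWithinAt
    rw [one_mul, one_div]
  have hb : ∀ x ∈ Set.Ico (0 : ℝ) 1, ‖(z + x)⁻¹ - z⁻¹‖ ≤ 1 / ‖z‖ ^ 2 := by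
    intro x hx
    have hne : z + x ≠ 0 := Complex.slitPlane_ne_zero (hsl x hx.1)
    have e : (z + x)⁻¹ - z⁻¹ = -(x : ℂ) / ((z + x) * z) := by
      field_simp
      ring
    rw [e, norm_div, norm_neg, norm_mul, Complex.norm_real, Real.norm_eq_abs, abs_of_nonneg hx.1]
    have h6 := hge x hx.1
    have h7 : ‖z‖ ^ 2 ≤ ‖z + x‖ * ‖z‖ := by
      rw [sq]; exact mul_le_mul_of_nonneg_right h6 hpos.le
    exact div_le_div₀ zero_le_one hx.2.le (by positivity) h7
  have := norm_image_sub_le_of_norm_deriv_le_segment_01' hd hb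
  simp only [ofReal_one, one_mul, ofReal_zero, add_zero, zero_mul, sub_zero] at this
  have e : log (z + 1) - log z - z⁻¹ = log (z + 1) - z⁻¹ - log z := by ring
  rw [e]
  exact this

theorem summ_bd : Summable (fun j : ℕ => (1 : ℝ) / ((j : ℝ) ^ 2 + 1)) := by
  have h := ((summable_nat_add_iff 1).mpr
    (Real.summable_one_div_nat_pow.mpr (by norm_num : 1 < 2))).mul_left 2
  refine Summable.of_nonneg_of_le (fun j => by positivity) (fun j => ?_) h
  push_cast
  rw [mul_one_div, div_le_div_iff₀ (by positivity) (by positivity)]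
  nlinarith [sq_nonneg ((j : ℝ) - 1)]

/-- the recursion of the digamma function -/
theorem dig_rec (z : ℂ) (him : z.im ≠ 0) : logDeriv Gamma (z + 1) = logDeriv Gamma z + z⁻¹ := by
  have e := digamma_apply_add_one z (ne_neg_nat_of_im him)
  rw [digamma_def] at e
  exact e

theorem dig_big : ∃ C : ℝ, 0 ≤ C ∧ ∀ (m : ℕ) (z : ℂ), 0 ≤ z.re → z.re ≤ 3 → 1 ≤ |z.im| →
    ‖logDeriv Gamma (z + m) - Real.log (m + |z.im|)‖ ≤ C := by
  obtain ⟨C1, hC1, hC⟩ := digamma_ext
  set S : ℝ := ∑' j : ℕ, (1 : ℝ) / ((j : ℝ) ^ 2 + 1) with hS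
  have hS0 : 0 ≤ S := tsum_nonneg fun j => by positivity
  have hlog4 : 0 ≤ Real.log 4 := Real.log_nonneg (by norm_num)
  -- comparison of logarithms
  have hlog : ∀ (m : ℕ) (z : ℂ), 0 ≤ z.re → z.re ≤ 3 → 1 ≤ |z.im| →
      ‖log (z + m) - Real.log (m + |z.im|)‖ ≤ Real.log 4 + Real.pi := by
    intro m z h1 h2 h3
    have hm : (0 : ℝ) ≤ m := Nat.cast_nonneg m
    have hre : (z + m).re = z.re + m := by simp
    have him : (z + m).im = z.im := by simp
    have e : log (z + m) - Real.log (m + |z.im|) =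
        ((Real.log ‖z + m‖ - Real.log (m + |z.im|) : ℝ) : ℂ) + (arg (z + m) : ℂ) * I := by
      rw [Complex.log]
      push_cast
      ring
    rw [e]
    refine (norm_add_le _ _).trans (add_le_add ?_ ?_)
    · rw [Complex.norm_real, Real.norm_eq_abs]
      have a1 : |(z + m).re| ≤ ‖z + m‖ := abs_re_le_norm _
      have a2 : |(z + m).im| ≤ ‖z + m‖ := abs_im_le_norm _
      have a3 : ‖z + m‖ ≤ |(z + m).re| + |(z + m).im| := norm_le_abs_re_add_abs_im _
      rw [hre, abs_of_nonneg (by linarith)] at a1 a3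
      rw [him] at a2 a3
      have hp : 0 < ‖z + m‖ := by linarith
      have hq : 0 < (m : ℝ) + |z.im| := by linarith
      rw [← Real.log_div hp.ne' hq.ne', abs_le]
      have hr : 0 < ‖z + m‖ / (m + |z.im|) := div_pos hp hq
      constructor
      · rw [neg_le, ← Real.log_inv]
        apply Real.log_le_log (inv_pos.2 hr)
        rw [inv_div, div_le_iff₀ hp]
        linarith
      · apply Real.log_le_log hr
        rw [div_le_iff₀ hq]
        linarith
    · rw [norm_mul, Complex.norm_real, Complex.norm_I, mul_one, Real.norm_eq_abs]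
      exact abs_arg_le_pi _
  refine ⟨C1 + (Real.log 4 + Real.pi) + S + (Real.log 4 + Real.pi), by positivity, ?_⟩
  intro m z h1 h2 h3
  have him0 : z.im ≠ 0 := by
    intro h; rw [h, abs_zero] at h3; linarith
  -- telescoping
  have htel : ∀ n : ℕ, ‖(logDeriv Gamma (z + n) - log (z + n)) - (logDeriv Gamma z - log z)‖ ≤
      ∑ j ∈ Finset.range n, (1 : ℝ) / ((j : ℝ) ^ 2 + 1) := by
    intro n
    induction n with
    | zero => simp
    | succ n ih =>
      rw [Finset.sum_range_succ]
      have hn : (0 : ℝ) ≤ n := Nat.cast_nonneg n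
      have hre : (z + n).re = z.re + n := by simp
      have him : (z + n).im = z.im := by simp
      have hsq : (n : ℝ) ^ 2 + 1 ≤ ‖z + n‖ ^ 2 := by
        rw [Complex.sq_norm, Complex.normSq_apply, hre, him]
        have : 1 ≤ z.im * z.im := by
          rw [← abs_mul_abs_self z.im]; nlinarith
        nlinarith
      have hn1 : 1 ≤ ‖z + n‖ := by
        have := abs_im_le_norm (z + n)
        rw [him] at this
        linarith
      have hst := log_step (z + n) (by rw [hre]; linarith) hn1 (by rw [him]; exact him0)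
      have hrec := dig_rec (z + n) (by rw [him]; exact him0)
      have ez : (z + ((n + 1 : ℕ) : ℂ)) = z + n + 1 := by push_cast; ring
      rw [ez, hrec]
      have e : (logDeriv Gamma (z + n) + (z + n)⁻¹ - log (z + n + 1)) - (logDeriv Gamma z - log z) =
          ((logDeriv Gamma (z + n) - log (z + n)) - (logDeriv Gamma z - log z)) -
          (log (z + n + 1) - log (z + n) - (z + n)⁻¹) := by ring
      rw [e]
      refine (norm_sub_le _ _).trans (add_le_add ih (hst.trans ?_))
      exact one_div_le_one_div_of_le (by positivity) hsq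
  have h4 := htel m
  have h5 : ∑ j ∈ Finset.range m, (1 : ℝ) / ((j : ℝ) ^ 2 + 1) ≤ S :=
    summ_bd.sum_le_tsum _ (fun j _ => by positivity)
  have h6 := hC z (by linarith) h2 (by linarith)
  have h7 := hlog 0 z h1 h2 h3
  have h8 := hlog m z h1 h2 h3
  simp only [Nat.cast_zero, add_zero, zero_add] at h7
  have e : logDeriv Gamma (z + m) - Real.log (m + |z.im|) =
      (logDeriv Gamma z - Real.log |z.im|) - (log z - Real.log |z.im|) +
      ((logDeriv Gamma (z + m) - log (z + m)) - (logDeriv Gamma z - log z)) +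
      (log (z + m) - Real.log (m + |z.im|)) := by ring
  rw [e]
  refine (norm_add_le _ _).trans (add_le_add ((norm_add_le _ _).trans (add_le_add
    ((norm_sub_le _ _).trans (add_le_add h6 h7)) (h4.trans h5))) h8)

end DigK

end Pool.Agent.W354.PK
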