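import Pool.Agent.W354.PK.PairK
import Pool.Agent.W354.PK.DigK
import Pool.Agent.W354.PK.GrowthK
import Pool.Agent.H304R3.HK.LeftH

set_option autoImplicit false

/-!
Logarithmic derivative of the functional equation and symmetry of the zeros, infinity type `k`
(adapted from `Pool.Agent.H304R3.HK.LeftH`, `SymH`).
-/

open Complex Filter Topology

namespace Pool.Agent.W354.PK

open H370.DL (refl hasDerivAt_refl analyticAt_refl im_osc re_osc eventually_im_ne ne_neg_nat_of_im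
  logDeriv_refl order_refl)
open Pool.Agent.H304R3.HK (L3_cpow_conj)
open L2x (re_k im_k)

/-- the factor of the functional equation -/
noncomputable def LXk (k : ℕ) (w : ℂ) (κ : ℝ) (z : ℂ) : ℂ :=
  (κ : ℂ) ^ (1 - 2 * z) * w * Gamma (1 - z + k / 2) / Gamma (z + k / 2)

theorem gam1 (k : ℕ) {s : ℂ} (hs : s.im ≠ 0) : (1 - s + k / 2 : ℂ).im ≠ 0 := by
  rw [im_k]; simpa using hs

theorem gam2 (k : ℕ) {s : ℂ} (hs : s.im ≠ 0) : (s + k / 2 : ℂ).im ≠ 0 := by
  rw [im_k]; exact hs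

theorem L3_func (k : ℕ) (κ : ℝ) (b : ℕ → ℂ) (w : ℂ) (H : Thk k κ b w) (z : ℂ) (hz : z.im ≠ 0) :
    FFk k b z = LXk k w (κ / Real.pi) z * refl (FFk k b) z := by
  have hκ1 := H.k1
  have hκ : 0 < κ / Real.pi := div_pos (by linarith) Real.pi_pos
  have hfe := LL_fe k κ b w H
  have hFF := FF_eq k κ hκ1 b
  set κ' : ℝ := κ / Real.pi with hκd
  have hκc : (κ' : ℂ) ≠ 0 := ofReal_ne_zero.mpr hκ.ne'
  have h1 : LLk k κ b z = w * (starRingEnd ℂ) (LLk k κ b (1 - (starRingEnd ℂ) z)) := by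
    have := hfe (1 - z)
    rw [sub_sub_cancel, map_sub, map_one] at this
    exact this
  have h3 := hFF z
  have h4 := hFF (1 - (starRingEnd ℂ) z)
  have hg1 : Gamma (1 - z + k / 2) ≠ 0 := Gamma_ne_zero (ne_neg_nat_of_im (gam1 k hz))
  have h2 : refl (FFk k b) z = (Gamma (1 - z + k / 2))⁻¹ * (κ' : ℂ) ^ (-(1 - z + k / 2)) *
      (starRingEnd ℂ) (LLk k κ b (1 - (starRingEnd ℂ) z)) := by
    change (starRingEnd ℂ) (FFk k b (1 - (starRingEnd ℂ) z)) = _
    rw [h4, map_mul, map_mul, map_inv₀, ← Complex.Gamma_conj, L3_cpow_conj κ' hκ]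
    have e1 : (starRingEnd ℂ) (1 - (starRingEnd ℂ) z + k / 2) = 1 - z + k / 2 := by
      simp only [map_add, map_sub, map_one, Complex.conj_conj, map_div₀, map_ofNat, map_natCast]
    have e2 : (starRingEnd ℂ) (-(1 - (starRingEnd ℂ) z + k / 2)) = -(1 - z + k / 2) := by
      rw [map_neg, e1]
    rw [e1, e2]
  have hp : (κ' : ℂ) ^ (-(1 - z + k / 2)) ≠ 0 := by
    rw [Ne, cpow_eq_zero_iff]
    exact fun h => hκc h.1
  have h5 : (starRingEnd ℂ) (LLk k κ b (1 - (starRingEnd ℂ) z)) =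
      Gamma (1 - z + k / 2) * ((κ' : ℂ) ^ (-(1 - z + k / 2)))⁻¹ * refl (FFk k b) z := by
    rw [h2]
    generalize Gamma (1 - z + k / 2) = G1 at *
    generalize (κ' : ℂ) ^ (-(1 - z + k / 2)) = P at *
    field_simp
  have h6 : (κ' : ℂ) ^ (1 - 2 * z) =
      (κ' : ℂ) ^ (-(z + k / 2)) * ((κ' : ℂ) ^ (-(1 - z + k / 2)))⁻¹ := by
    rw [← cpow_neg, ← cpow_add _ _ hκc]
    congr 1
    ring
  rw [h3, h1, h5, LXk, h6]
  ring

theorem logDeriv_LX (k : ℕ) (w : ℂ) (hw : w ≠ 0) (κ : ℝ) (hκ : 0 < κ) {s : ℂ} (hs : s.im ≠ 0) :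
    logDeriv (LXk k w κ) s = -(2 * Real.log κ : ℂ) - logDeriv Gamma (1 - s + k / 2) -
      logDeriv Gamma (s + k / 2) := by
  have him1 := gam1 k hs
  have him2 := gam2 k hs
  have hg1 := Gamma_ne_zero (ne_neg_nat_of_im him1)
  have hg2 := Gamma_ne_zero (ne_neg_nat_of_im him2)
  have hκc : (κ : ℂ) ≠ 0 := ofReal_ne_zero.mpr hκ.ne'
  have hqne : (κ : ℂ) ^ (1 - 2 * s) ≠ 0 := by
    rw [Ne, cpow_eq_zero_iff]
    exact fun h => hκc h.1
  have d1 : HasDerivAt (fun z : ℂ => (κ : ℂ) ^ (1 - 2 * z))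
      ((κ : ℂ) ^ (1 - 2 * s) * log (κ : ℂ) * (-(2 * 1))) s := by
    have h1 : HasDerivAt (fun z : ℂ => 1 - 2 * z) (-(2 * 1)) s :=
      ((hasDerivAt_id s).const_mul 2).const_sub 1
    exact h1.const_cpow (Or.inl hκc)
  have d2 : HasDerivAt (fun z : ℂ => Gamma (1 - z + k / 2)) (deriv Gamma (1 - s + k / 2) * (-1))
      s := by
    have h1 : HasDerivAt (fun z : ℂ => 1 - z + k / 2) (-1) s :=
      ((hasDerivAt_id s).const_sub _).add_const _
    exact HasDerivAt.comp s (differentiableAt_Gamma _ (ne_neg_nat_of_im him1)).hasDerivAt h1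
  have d3 : HasDerivAt (fun z : ℂ => Gamma (z + k / 2)) (deriv Gamma (s + k / 2)) s := by
    have h1 : HasDerivAt (fun z : ℂ => z + k / 2) 1 s := (hasDerivAt_id s).add_const _
    simpa [Function.comp_def] using
      HasDerivAt.comp s (differentiableAt_Gamma _ (ne_neg_nat_of_im him2)).hasDerivAt h1
  have d4 := ((d1.mul_const w).mul d2).div d3 hg2
  have e : deriv (LXk k w κ) s = _ := d4.deriv
  rw [logDeriv_apply, e, logDeriv_apply, logDeriv_apply, LXk]
  have hlog : log (κ : ℂ) = (Real.log κ : ℂ) := by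
    rw [Complex.ofReal_log hκ.le]
  simp only [Pi.mul_apply]
  rw [hlog]
  generalize (κ : ℂ) ^ (1 - 2 * s) = P at *
  generalize Gamma (1 - s + k / 2) = G1 at *
  generalize Gamma (s + k / 2) = G2 at *
  field_simp
  ring

theorem LX_analytic (k : ℕ) (w : ℂ) (κ : ℝ) (hκ : 0 < κ) {s : ℂ} (hs : s.im ≠ 0) :
    AnalyticAt ℂ (LXk k w κ) s := by
  rw [analyticAt_iff_eventually_differentiableAt]
  filter_upwards [eventually_im_ne hs] with z hz
  have him1 := gam1 k hz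
  have him2 := gam2 k hz
  have hκc : (κ : ℂ) ≠ 0 := ofReal_ne_zero.mpr hκ.ne'
  have hg2 := Gamma_ne_zero (ne_neg_nat_of_im him2)
  have a1 : DifferentiableAt ℂ (fun z : ℂ => (κ : ℂ) ^ (1 - 2 * z)) z :=
    DifferentiableAt.const_cpow (by fun_prop) (Or.inl hκc)
  have a2 : DifferentiableAt ℂ (fun z : ℂ => Gamma (1 - z + k / 2)) z :=
    DifferentiableAt.comp z (differentiableAt_Gamma _ (ne_neg_nat_of_im him1)) (by fun_prop)
  have a3 : DifferentiableAt ℂ (fun z : ℂ => Gamma (z + k / 2)) z :=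
    DifferentiableAt.comp z (differentiableAt_Gamma _ (ne_neg_nat_of_im him2)) (by fun_prop)
  exact ((a1.mul_const w).mul a2).div a3 hg2

theorem LX_ne_zero (k : ℕ) (w : ℂ) (hw : w ≠ 0) (κ : ℝ) (hκ : 0 < κ) {s : ℂ} (hs : s.im ≠ 0) :
    LXk k w κ s ≠ 0 := by
  have him1 := gam1 k hs
  have him2 := gam2 k hs
  have hg1 := Gamma_ne_zero (ne_neg_nat_of_im him1)
  have hg2 := Gamma_ne_zero (ne_neg_nat_of_im him2)
  have hκc : (κ : ℂ) ≠ 0 := ofReal_ne_zero.mpr hκ.ne'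
  have hqne : (κ : ℂ) ^ (1 - 2 * s) ≠ 0 := by
    rw [Ne, cpow_eq_zero_iff]
    exact fun h => hκc h.1
  unfold LXk
  exact div_ne_zero (mul_ne_zero (mul_ne_zero hqne hw) hg1) hg2

/-- digamma at `s + k/2`, uniformly in `k` -/
theorem dig_k : ∃ C : ℝ, 0 ≤ C ∧ ∀ (k : ℕ) (z : ℂ), 1 ≤ k → -1 / 2 ≤ z.re → z.re ≤ 3 / 2 →
    1 ≤ |z.im| → ‖logDeriv Gamma (z + k / 2) - Real.log (k + |z.im|)‖ ≤ C := by
  obtain ⟨C, hC0, hC⟩ := DigK.dig_big
  refine ⟨C + Real.log 4, add_nonneg hC0 (Real.log_nonneg (by norm_num)), ?_⟩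
  intro k z hk h1 h2 h3
  have key : ∀ (m : ℕ) (z0 : ℂ), 0 ≤ z0.re → z0.re ≤ 3 → z0.im = z.im → z + k / 2 = z0 + m →
      (k : ℝ) ≤ 2 * m + 2 → (m : ℝ) ≤ k →
      ‖logDeriv Gamma (z + k / 2) - Real.log (k + |z.im|)‖ ≤ C + Real.log 4 := by
    intro m z0 a1 a2 a3 a4 a5 a6
    have b1 := hC m z0 a1 a2 (by rw [a3]; exact h3)
    rw [a3] at b1
    have hm : (0 : ℝ) ≤ m := Nat.cast_nonneg m
    have hp : 0 < (m : ℝ) + |z.im| := by linarith
    have hq : 0 < (k : ℝ) + |z.im| := by linarith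
    have b2 : |Real.log (k + |z.im|) - Real.log (m + |z.im|)| ≤ Real.log 4 := by
      rw [abs_of_nonneg (sub_nonneg.2 (Real.log_le_log hp (by linarith))),
        ← Real.log_div hq.ne' hp.ne']
      apply Real.log_le_log (div_pos hq hp)
      rw [div_le_iff₀ hp]
      linarith
    have e : logDeriv Gamma (z + k / 2) - Real.log (k + |z.im|) =
        (logDeriv Gamma (z0 + m) - Real.log (m + |z.im|)) -
        ((Real.log (k + |z.im|) - Real.log (m + |z.im|) : ℝ) : ℂ) := by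
      rw [a4]; push_cast; ring
    rw [e]
    refine (norm_sub_le _ _).trans (add_le_add b1 ?_)
    rw [Complex.norm_real, Real.norm_eq_abs]
    exact b2
  rcases Nat.even_or_odd' k with ⟨m, hm | hm⟩
  · have hm1 : 1 ≤ m := by omega
    have hmc : (1 : ℝ) ≤ m := by exact_mod_cast hm1
    have hkr : (k : ℝ) = 2 * m := by rw [hm]; push_cast; ring
    refine key (m - 1) (z + 1) (by simp; linarith) (by simp; linarith) (by simp) ?_ ?_ ?_
    · rw [hm, Nat.cast_sub hm1]; push_cast; ring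
    · rw [Nat.cast_sub hm1, hkr]; push_cast; linarith
    · rw [Nat.cast_sub hm1, hkr]; push_cast; linarith
  · have hkr : (k : ℝ) = 2 * m + 1 := by rw [hm]; push_cast; ring
    have hmc : (0 : ℝ) ≤ m := Nat.cast_nonneg m
    refine key m (z + 1 / 2) (by simp; linarith) (by simp; linarith) (by simp) ?_ ?_ ?_
    · rw [hm]; push_cast; ring
    · rw [hkr]; linarith
    · rw [hkr]; linarith

theorem FF_left : ∃ A : ℝ, 1 ≤ A ∧ ∀ (k : ℕ) (κ : ℝ) (b : ℕ → ℂ) (w : ℂ), Thk k κ b w →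
    ∀ s : ℂ, -1 / 2 ≤ s.re → s.re ≤ 1 / 2 → 1 ≤ s.im → FFk k b s ≠ 0 →
    ‖deriv (FFk k b) s / FFk k b s + ((2 * Real.log (κ * (k + s.im)) : ℝ) : ℂ) +
      (starRingEnd ℂ) (deriv (FFk k b) (1 - (starRingEnd ℂ) s) /
        FFk k b (1 - (starRingEnd ℂ) s))‖ ≤ A := by
  obtain ⟨C, hC0, hC⟩ := dig_k
  refine ⟨|2 * Real.log (1 / Real.pi)| + C + C + 1, by
    have := abs_nonneg (2 * Real.log (1 / Real.pi))
    linarith, ?_⟩
  intro k κ b w H s h1 h2 h3 h4
  have hs : s.im ≠ 0 := by linarith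
  have hk1 := H.k1
  have hk0 : (0 : ℝ) < κ := by linarith
  have hpi := Real.pi_pos
  have hkk : (0 : ℝ) ≤ k := Nat.cast_nonneg k
  have hκ : 0 < κ / Real.pi := by positivity
  have hfe := L3_func k κ b w H
  have hw := H.w1
  have hw0 : w ≠ 0 := by
    intro h
    rw [h, norm_zero] at hw
    exact zero_ne_one hw
  set κ' : ℝ := κ / Real.pi with hκd
  have hd : Differentiable ℂ (FFk k b) := FF_entire k κ b w H
  have ha : AnalyticAt ℂ (FFk k b) (1 - (starRingEnd ℂ) s) :=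
    (hd.differentiableOn).analyticAt Filter.univ_mem
  have e1 : FFk k b =ᶠ[𝓝 s] fun z => LXk k w κ' z * refl (FFk k b) z := by
    filter_upwards [eventually_im_ne hs] with z hz
    exact hfe z hz
  have hr : refl (FFk k b) s ≠ 0 := by
    intro h
    apply h4
    rw [hfe s hs, h, mul_zero]
  have e2 : logDeriv (FFk k b) s = logDeriv (LXk k w κ') s + logDeriv (refl (FFk k b)) s := by
    rw [(logDeriv_congr_nhds e1).eq_of_nhds]
    exact logDeriv_mul s (LX_ne_zero k w hw0 κ' hκ hs) hr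
      (LX_analytic k w κ' hκ hs).differentiableAt (analyticAt_refl ha).differentiableAt
  rw [logDeriv_refl ha.differentiableAt, logDeriv_LX k w hw0 κ' hκ hs] at e2
  change ‖logDeriv (FFk k b) s + ((2 * Real.log (κ * (k + s.im)) : ℝ) : ℂ) +
    (starRingEnd ℂ) (logDeriv (FFk k b) (1 - (starRingEnd ℂ) s))‖ ≤ _
  rw [e2]
  have i1 : |(1 - s).im| = s.im := by
    simp [abs_of_nonneg (by linarith : 0 ≤ s.im)]
  have i2 : |s.im| = s.im := abs_of_nonneg (by linarith : 0 ≤ s.im)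
  have b1 := hC k (1 - s) H.k0 (by simp; linarith) (by simp; linarith) (by rw [i1]; exact h3)
  have b2 := hC k s H.k0 (by linarith) (by linarith) (by rw [i2]; exact h3)
  rw [i1] at b1
  rw [i2] at b2
  have hlogκ : Real.log κ' = Real.log (1 / Real.pi) + Real.log κ := by
    rw [← Real.log_mul (by positivity) hk0.ne', hκd]
    congr 1
    ring
  have hlogq : Real.log (κ * (k + s.im)) = Real.log κ + Real.log (k + s.im) :=
    Real.log_mul hk0.ne' (by linarith)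
  have e3 : -(2 * Real.log κ' : ℂ) - logDeriv Gamma (1 - s + k / 2) - logDeriv Gamma (s + k / 2) +
      -(starRingEnd ℂ) (logDeriv (FFk k b) (1 - (starRingEnd ℂ) s)) +
        ((2 * Real.log (κ * (k + s.im)) : ℝ) : ℂ) +
      (starRingEnd ℂ) (logDeriv (FFk k b) (1 - (starRingEnd ℂ) s)) =
      -((2 * Real.log (1 / Real.pi) : ℝ) : ℂ) -
        (logDeriv Gamma (1 - s + k / 2) - Real.log (k + s.im)) -
      (logDeriv Gamma (s + k / 2) - Real.log (k + s.im)) := by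
    rw [hlogq, hlogκ]
    push_cast
    ring
  rw [e3]
  refine (norm_sub_le _ _).trans ?_
  have n1 := norm_sub_le (-((2 * Real.log (1 / Real.pi) : ℝ) : ℂ))
    (logDeriv Gamma (1 - s + k / 2) - Real.log (k + s.im))
  rw [norm_neg, Complex.norm_real, Real.norm_eq_abs] at n1
  linarith

/-- zeros on the left -/
theorem FF_nzl (k : ℕ) (κ : ℝ) (b : ℕ → ℂ) (w : ℂ) (H : Thk k κ b w)
    (hnz : ∀ s : ℂ, 1 ≤ s.re → 1 ≤ s.im → FFk k b s ≠ 0)
    (s : ℂ) (h1 : s.re ≤ 0) (h2 : 1 ≤ s.im) : FFk k b s ≠ 0 := by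
  have hs : s.im ≠ 0 := by linarith
  have hk1 := H.k1
  have hk0 : (0 : ℝ) < κ := by linarith
  have hκ : 0 < κ / Real.pi := div_pos hk0 Real.pi_pos
  have hw0 : w ≠ 0 := by
    intro h
    have := H.w1
    rw [h, norm_zero] at this
    exact zero_ne_one this
  rw [L3_func k κ b w H s hs]
  refine mul_ne_zero (LX_ne_zero k w hw0 _ hκ hs) ?_
  unfold H370.DL.refl
  rw [map_ne_zero]
  refine hnz _ ?_ ?_
  · rw [re_osc]
    linarith
  · rw [im_osc]
    exact h2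

/-- symmetry of the zeros -/
theorem FF_symm (k : ℕ) (κ : ℝ) (b : ℕ → ℂ) (w : ℂ) (H : Thk k κ b w) (s : ℂ) (h2 : 1 ≤ s.im) :
    analyticOrderAt (FFk k b) (1 - (starRingEnd ℂ) s) = analyticOrderAt (FFk k b) s := by
  have hs : s.im ≠ 0 := by linarith
  have hk1 := H.k1
  have hk0 : (0 : ℝ) < κ := by linarith
  have hκ : 0 < κ / Real.pi := div_pos hk0 Real.pi_pos
  have hw0 : w ≠ 0 := by
    intro h
    have := H.w1
    rw [h, norm_zero] at this
    exact zero_ne_one this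
  have ha : AnalyticAt ℂ (FFk k b) (1 - (starRingEnd ℂ) s) := (FF_entire k κ b w H).analyticAt _
  have h1 : FFk k b =ᶠ[𝓝 s] (LXk k w (κ / Real.pi)) * refl (FFk k b) := by
    filter_upwards [eventually_im_ne hs] with z hz
    exact L3_func k κ b w H z hz
  have hX : AnalyticAt ℂ (LXk k w (κ / Real.pi)) s := LX_analytic k w _ hκ hs
  rw [analyticOrderAt_congr h1, analyticOrderAt_mul hX (analyticAt_refl ha),
    hX.analyticOrderAt_eq_zero.mpr (LX_ne_zero k w hw0 _ hκ hs), zero_add, order_refl ha]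

end Pool.Agent.W354.PK
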