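import Pool.Agent.W354.PK.Defs

set_option autoImplicit false

/-!
Poisson summation for `x^k e^{-π Y |x|²}` on the shifted lattice `ℤ[i] + z`, every `k`, from the
generating function `e^{s x}`.
-/

open Filter Topology

namespace Pool.Agent.W354.PK

namespace KK

/-- one dimensional theta transformation with a complex linear term -/
theorem theta1 (a Y : ℝ) (hY : 0 < Y) (s : ℂ) : ∃ V : ℂ,
    HasSum (fun n : ℤ => Complex.exp (s * ((n : ℂ) + a) - Real.pi * Y * ((n : ℂ) + a) ^ 2)) V ∧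
    HasSum (fun m : ℤ => (1 / (Real.sqrt Y : ℂ)) * Complex.exp (s ^ 2 / (4 * Real.pi * Y)) *
      Complex.exp (2 * Real.pi * Complex.I * m * a - Complex.I * m * s / Y -
        Real.pi * (m : ℂ) ^ 2 / Y)) V := by
  have hpi : (Real.pi : ℂ) ≠ 0 := by exact_mod_cast Real.pi_pos.ne'
  have hYc : (Y : ℂ) ≠ 0 := by exact_mod_cast hY.ne'
  have hI := Complex.I_ne_zero
  set z : ℂ := (s - 2 * Real.pi * Y * a) / (2 * Real.pi * Complex.I) with hz
  set τ : ℂ := Complex.I * Y with hτ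
  have hτim : 0 < τ.im := by simp [hτ, hY]
  have hτ2 : 0 < (-1 / τ).im := by
    have : -1 / τ = Complex.I * ((1 / Y : ℝ) : ℂ) := by
      rw [hτ]; push_cast; field_simp; rw [Complex.I_sq]
    rw [this]; simp; exact hY
  have h1 := hasSum_jacobiTheta₂_term z hτim
  have h2 := hasSum_jacobiTheta₂_term (z / τ) hτ2
  have hfe := jacobiTheta₂_functional_equation z τ
  have hroot : (-Complex.I * τ) ^ (1 / 2 : ℂ) = (Real.sqrt Y : ℂ) := by
    have : -Complex.I * τ = (Y : ℂ) := by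
      rw [hτ]; linear_combination (-(Y : ℂ)) * Complex.I_sq
    rw [this, Real.sqrt_eq_rpow, Complex.ofReal_cpow hY.le]
    push_cast
    rfl
  rw [hroot] at hfe
  set P : ℂ := Complex.exp (s * a - Real.pi * Y * a ^ 2) with hP
  refine ⟨P * jacobiTheta₂ z τ, ?_, ?_⟩
  · refine (h1.mul_left P).congr_fun fun n => ?_
    rw [hP, jacobiTheta₂_term, ← Complex.exp_add]
    congr 1
    rw [hz, hτ]
    field_simp
    linear_combination (-(Real.pi : ℂ) * n ^ 2 * Y) * Complex.I_sq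
  · rw [hfe]
    have h3 := h2.mul_left (P * (1 / (Real.sqrt Y : ℂ) *
      Complex.exp (-Real.pi * Complex.I * z ^ 2 / τ)))
    rw [← mul_assoc]
    refine h3.congr_fun fun m => ?_
    have e1 : Complex.exp (s ^ 2 / (4 * Real.pi * Y)) =
        P * Complex.exp (-Real.pi * Complex.I * z ^ 2 / τ) := by
      rw [hP, ← Complex.exp_add]
      congr 1
      rw [hz, hτ]
      field_simp
      ring_nf
      rw [Complex.I_sq]
      ring
    have e2 : Complex.exp (2 * Real.pi * Complex.I * m * a - Complex.I * m * s / Y -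
        Real.pi * (m : ℂ) ^ 2 / Y) = jacobiTheta₂_term m (z / τ) (-1 / τ) := by
      rw [jacobiTheta₂_term]
      congr 1
      rw [hz, hτ]
      field_simp
      ring_nf
      rw [Complex.I_sq]
      ring
    rw [e1, e2]
    ring

/-- summability of a Gaussian with a linear term in the absolute value -/
theorem summ1 (a Y R : ℝ) (hY : 0 < Y) :
    Summable (fun n : ℤ => Real.exp (R * |(n : ℝ) + a| - Real.pi * Y * ((n : ℝ) + a) ^ 2)) := by
  have h : ∀ r : ℝ, Summable (fun n : ℤ =>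
      Real.exp (r * ((n : ℝ) + a) - Real.pi * Y * ((n : ℝ) + a) ^ 2)) := by
    intro r
    obtain ⟨V, hV, -⟩ := theta1 a Y hY (r : ℂ)
    refine hV.summable.norm.congr fun n => ?_
    rw [Complex.norm_exp]
    congr 1
    have : ((r : ℂ) * ((n : ℂ) + a) - Real.pi * Y * ((n : ℂ) + a) ^ 2) =
        ((r * ((n : ℝ) + a) - Real.pi * Y * ((n : ℝ) + a) ^ 2 : ℝ) : ℂ) := by
      push_cast; ring
    rw [this, Complex.ofReal_re]
  refine Summable.of_nonneg_of_le (fun n => (Real.exp_pos _).le) (fun n => ?_) ((h R).add (h (-R)))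
  rcases le_total 0 ((n : ℝ) + a) with h0 | h0
  · rw [abs_of_nonneg h0]
    have := (Real.exp_pos (-R * ((n : ℝ) + a) - Real.pi * Y * ((n : ℝ) + a) ^ 2)).le
    linarith
  · rw [abs_of_nonpos h0]
    have := (Real.exp_pos (R * ((n : ℝ) + a) - Real.pi * Y * ((n : ℝ) + a) ^ 2)).le
    have e : R * -((n : ℝ) + a) = -R * ((n : ℝ) + a) := by ring
    rw [e]
    linarith

theorem summ2 (a b Y R : ℝ) (hY : 0 < Y) (hR : 0 ≤ R) :
    Summable (fun p : ℤ × ℤ => Real.exp (-Real.pi * Y * (((p.1 : ℝ) + a) ^ 2 + ((p.2 : ℝ) + b) ^ 2)) *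
      Real.exp (R * ‖(((p.1 : ℝ) + a : ℝ) : ℂ) + (((p.2 : ℝ) + b : ℝ) : ℂ) * Complex.I‖)) := by
  have h1 := summ1 a Y R hY
  have h2 := summ1 b Y R hY
  have h3 := h1.mul_of_nonneg h2 (fun n => (Real.exp_pos _).le) (fun n => (Real.exp_pos _).le)
  refine Summable.of_nonneg_of_le (fun n => by positivity) (fun p => ?_) h3
  rw [← Real.exp_add, ← Real.exp_add]
  apply Real.exp_le_exp.2
  have h4 : ‖(((p.1 : ℝ) + a : ℝ) : ℂ) + (((p.2 : ℝ) + b : ℝ) : ℂ) * Complex.I‖ ≤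
      |(p.1 : ℝ) + a| + |(p.2 : ℝ) + b| := by
    refine (norm_add_le _ _).trans ?_
    rw [norm_mul, Complex.norm_I, mul_one, Complex.norm_real, Complex.norm_real,
      Real.norm_eq_abs, Real.norm_eq_abs]
  nlinarith

/-- the two dimensional generating function -/
theorem theta2 (a b Y : ℝ) (hY : 0 < Y) (s : ℂ) : ∃ V : ℂ,
    HasSum (fun p : ℤ × ℤ =>
      ((Real.exp (-Real.pi * Y * (((p.1 : ℝ) + a) ^ 2 + ((p.2 : ℝ) + b) ^ 2)) : ℝ) : ℂ) *
      Complex.exp (s * ((((p.1 : ℝ) + a : ℝ) : ℂ) + (((p.2 : ℝ) + b : ℝ) : ℂ) * Complex.I))) V ∧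
    HasSum (fun p : ℤ × ℤ => ((1 / (Y : ℂ)) *
      Complex.exp (2 * Real.pi * Complex.I * ((p.1 : ℂ) * a + (p.2 : ℂ) * b)) *
      ((Real.exp (-Real.pi * ((p.1 : ℝ) ^ 2 + (p.2 : ℝ) ^ 2) / Y) : ℝ) : ℂ)) *
      Complex.exp (s * ((-Complex.I / Y) * ((p.1 : ℂ) + (p.2 : ℂ) * Complex.I)))) V := by
  obtain ⟨V1, hA1, hB1⟩ := theta1 a Y hY s
  obtain ⟨V2, hA2, hB2⟩ := theta1 b Y hY (s * Complex.I)
  have hYc : (Y : ℂ) ≠ 0 := by exact_mod_cast hY.ne'
  have hpi : (Real.pi : ℂ) ≠ 0 := by exact_mod_cast Real.pi_pos.ne'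
  have hpr : ∀ (f g : ℤ → ℂ) (A B : ℂ), HasSum f A → HasSum g B →
      HasSum (fun p : ℤ × ℤ => f p.1 * g p.2) (A * B) := by
    intro f g A B hf hg
    exact hf.mul hg (summable_mul_of_summable_norm hf.summable.norm hg.summable.norm)
  have hsq : (Real.sqrt Y : ℂ) * (Real.sqrt Y : ℂ) = (Y : ℂ) := by
    rw [← Complex.ofReal_mul, Real.mul_self_sqrt hY.le]
  refine ⟨V1 * V2, ?_, ?_⟩
  · refine (hpr _ _ _ _ hA1 hA2).congr_fun fun p => ?_
    rw [← Complex.exp_add, Complex.ofReal_exp, ← Complex.exp_add]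
    congr 1
    push_cast
    ring
  · refine (hpr _ _ _ _ hB1 hB2).congr_fun fun p => ?_
    have e1 : Complex.exp (s ^ 2 / (4 * Real.pi * Y)) *
        Complex.exp ((s * Complex.I) ^ 2 / (4 * Real.pi * Y)) = 1 := by
      rw [← Complex.exp_add, mul_pow, Complex.I_sq]
      have : s ^ 2 / (4 * Real.pi * Y) + s ^ 2 * -1 / (4 * Real.pi * Y) = 0 := by ring
      rw [this, Complex.exp_zero]
    have e2 : (1 / (Real.sqrt Y : ℂ)) * (1 / (Real.sqrt Y : ℂ)) = 1 / (Y : ℂ) := by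
      rw [← hsq]
      rw [one_div_mul_one_div]
    have e3 : Complex.exp (2 * Real.pi * Complex.I * p.1 * a - Complex.I * p.1 * s / Y -
        Real.pi * (p.1 : ℂ) ^ 2 / Y) *
        Complex.exp (2 * Real.pi * Complex.I * p.2 * b - Complex.I * p.2 * (s * Complex.I) / Y -
        Real.pi * (p.2 : ℂ) ^ 2 / Y) =
        Complex.exp (2 * Real.pi * Complex.I * ((p.1 : ℂ) * a + (p.2 : ℂ) * b)) *
      ((Real.exp (-Real.pi * ((p.1 : ℝ) ^ 2 + (p.2 : ℝ) ^ 2) / Y) : ℝ) : ℂ) *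
      Complex.exp (s * ((-Complex.I / Y) * ((p.1 : ℂ) + (p.2 : ℂ) * Complex.I))) := by
      rw [Complex.ofReal_exp, ← Complex.exp_add, ← Complex.exp_add, ← Complex.exp_add]
      congr 1
      push_cast
      ring
    calc _ = (1 / (Y : ℂ)) * (Complex.exp (2 * Real.pi * Complex.I * ((p.1 : ℂ) * a +
        (p.2 : ℂ) * b)) * ((Real.exp (-Real.pi * ((p.1 : ℝ) ^ 2 + (p.2 : ℝ) ^ 2) / Y) : ℝ) : ℂ) *
        Complex.exp (s * ((-Complex.I / Y) * ((p.1 : ℂ) + (p.2 : ℂ) * Complex.I)))) := by ring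
      _ = ((1 / (Real.sqrt Y : ℂ)) * (1 / (Real.sqrt Y : ℂ))) *
        (Complex.exp (s ^ 2 / (4 * Real.pi * Y)) *
        Complex.exp ((s * Complex.I) ^ 2 / (4 * Real.pi * Y))) *
        (Complex.exp (2 * Real.pi * Complex.I * p.1 * a - Complex.I * p.1 * s / Y -
        Real.pi * (p.1 : ℂ) ^ 2 / Y) *
        Complex.exp (2 * Real.pi * Complex.I * p.2 * b - Complex.I * p.2 * (s * Complex.I) / Y -
        Real.pi * (p.2 : ℂ) ^ 2 / Y)) := by rw [e1, e2, e3]; ring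
      _ = _ := by ring

/-! ### power sums from generating functions -/

section gen

variable {ι : Type*}

/-- the `k`-th derivative of the generating function -/
noncomputable def PS (c z : ι → ℂ) (k : ℕ) (s : ℂ) : ℂ :=
  ∑' p, c p * (z p) ^ k * Complex.exp (s * z p)

theorem bnd (c z : ι → ℂ) (hs : ∀ R : ℝ, 0 ≤ R → Summable (fun p => ‖c p‖ * Real.exp (R * ‖z p‖)))
    (k : ℕ) (R : ℝ) (hR : 0 ≤ R) :
    Summable (fun p => ‖c p‖ * ‖z p‖ ^ k * Real.exp (R * ‖z p‖)) := by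
  refine Summable.of_nonneg_of_le (fun p => by positivity) (fun p => ?_)
    ((hs (R + 1) (by linarith)).mul_left (k.factorial : ℝ))
  have h1 : ‖z p‖ ^ k ≤ k.factorial * Real.exp ‖z p‖ := by
    have h2 := Real.pow_div_factorial_le_exp ‖z p‖ (norm_nonneg _) k
    rw [div_le_iff₀ (by positivity)] at h2
    linarith
  have h3 : Real.exp ((R + 1) * ‖z p‖) = Real.exp (R * ‖z p‖) * Real.exp ‖z p‖ := by
    rw [← Real.exp_add]; congr 1; ring
  rw [h3]
  have h4 := mul_le_mul_of_nonneg_left h1 (mul_nonneg (norm_nonneg (c p))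
    (Real.exp_pos (R * ‖z p‖)).le)
  calc _ = ‖c p‖ * Real.exp (R * ‖z p‖) * ‖z p‖ ^ k := by ring
    _ ≤ _ := h4
    _ = _ := by ring

theorem term_le (c z : ι → ℂ) (k : ℕ) (R : ℝ) (s : ℂ) (hs : ‖s‖ ≤ R) (p : ι) :
    ‖c p * (z p) ^ k * Complex.exp (s * z p)‖ ≤ ‖c p‖ * ‖z p‖ ^ k * Real.exp (R * ‖z p‖) := by
  rw [norm_mul, norm_mul, norm_pow]
  refine mul_le_mul_of_nonneg_left ?_ (by positivity)
  rw [Complex.norm_exp]
  apply Real.exp_le_exp.2
  refine (Complex.re_le_norm _).trans ?_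
  rw [norm_mul]
  exact mul_le_mul_of_nonneg_right hs (norm_nonneg _)

theorem PS_hasSum (c z : ι → ℂ)
    (hs : ∀ R : ℝ, 0 ≤ R → Summable (fun p => ‖c p‖ * Real.exp (R * ‖z p‖))) (k : ℕ) (s : ℂ) :
    HasSum (fun p => c p * (z p) ^ k * Complex.exp (s * z p)) (PS c z k s) :=
  (Summable.of_norm_bounded (bnd c z hs k ‖s‖ (norm_nonneg _))
    (fun p => term_le c z k ‖s‖ s le_rfl p)).hasSum

theorem PS_deriv (c z : ι → ℂ)
    (hs : ∀ R : ℝ, 0 ≤ R → Summable (fun p => ‖c p‖ * Real.exp (R * ‖z p‖))) (k : ℕ) (s : ℂ) :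
    HasDerivAt (PS c z k) (PS c z (k + 1) s) s := by
  unfold PS
  have hR : 0 ≤ ‖s‖ + 1 := by positivity
  refine hasDerivAt_tsum_of_isPreconnected (𝕜 := ℂ) (F := ℂ)
    (g := fun p (x : ℂ) => c p * (z p) ^ k * Complex.exp (x * z p))
    (g' := fun p (x : ℂ) => c p * (z p) ^ (k + 1) * Complex.exp (x * z p))
    (t := Metric.ball (0 : ℂ) (‖s‖ + 1)) (y₀ := s) (bnd c z hs (k + 1) (‖s‖ + 1) hR)
    Metric.isOpen_ball (convex_ball _ _).isPreconnected ?_ ?_ ?_ ?_ ?_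
  · intro p y _
    have h1 : HasDerivAt (fun x : ℂ => x * z p) (z p) y := by
      simpa using (hasDerivAt_id y).mul_const (z p)
    have h2 := h1.cexp.const_mul (c p * (z p) ^ k)
    refine h2.congr_deriv ?_
    ring
  · intro p y hy
    rw [mem_ball_zero_iff] at hy
    exact term_le c z (k + 1) (‖s‖ + 1) y hy.le p
  · rw [mem_ball_zero_iff]; linarith
  · exact (PS_hasSum c z hs k s).summable
  · rw [mem_ball_zero_iff]; linarith

theorem PS_eq {ι' : Type*} (c z : ι → ℂ) (c' z' : ι' → ℂ)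
    (hs : ∀ R : ℝ, 0 ≤ R → Summable (fun p => ‖c p‖ * Real.exp (R * ‖z p‖)))
    (hs' : ∀ R : ℝ, 0 ≤ R → Summable (fun p => ‖c' p‖ * Real.exp (R * ‖z' p‖)))
    (h : ∀ s : ℂ, ∃ V, HasSum (fun p => c p * Complex.exp (s * z p)) V ∧
      HasSum (fun p => c' p * Complex.exp (s * z' p)) V) (k : ℕ) : PS c z k = PS c' z' k := by
  induction k with
  | zero =>
    funext s
    obtain ⟨V, h1, h2⟩ := h s
    have e1 := (PS_hasSum c z hs 0 s)
    have e2 := (PS_hasSum c' z' hs' 0 s)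
    simp only [pow_zero, mul_one] at e1 e2
    rw [e1.unique h1, e2.unique h2]
  | succ k ih =>
    funext s
    have e1 := PS_deriv c z hs k s
    have e2 := PS_deriv c' z' hs' k s
    rw [← ih] at e2
    exact e1.unique e2

end gen

end KK

/-- Poisson summation with the harmonic polynomial `x^k` -/
theorem kernk_fe (k : ℕ) (a b Y : ℝ) (hY : 0 < Y) : ∃ V : ℂ,
    HasSum (fun p : ℤ × ℤ =>
      ((((p.1 : ℝ) + a : ℝ) : ℂ) + (((p.2 : ℝ) + b : ℝ) : ℂ) * Complex.I) ^ k *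
      (Real.exp (-Real.pi * Y * (((p.1 : ℝ) + a) ^ 2 + ((p.2 : ℝ) + b) ^ 2)) : ℂ)) V ∧
    HasSum (fun p : ℤ × ℤ => ((-Complex.I) ^ k / (Y : ℂ) ^ (k + 1)) *
      ((p.1 : ℂ) + (p.2 : ℂ) * Complex.I) ^ k *
      Complex.exp (2 * Real.pi * Complex.I * ((p.1 : ℂ) * a + (p.2 : ℂ) * b)) *
      (Real.exp (-Real.pi * ((p.1 : ℝ) ^ 2 + (p.2 : ℝ) ^ 2) / Y) : ℂ)) V := by
  have hYc : (Y : ℂ) ≠ 0 := by exact_mod_cast hY.ne'
  have hs : ∀ R : ℝ, 0 ≤ R → Summable (fun p : ℤ × ℤ =>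
      ‖((Real.exp (-Real.pi * Y * (((p.1 : ℝ) + a) ^ 2 + ((p.2 : ℝ) + b) ^ 2)) : ℝ) : ℂ)‖ *
      Real.exp (R * ‖(((p.1 : ℝ) + a : ℝ) : ℂ) + (((p.2 : ℝ) + b : ℝ) : ℂ) * Complex.I‖)) := by
    intro R hR
    refine (KK.summ2 a b Y R hY hR).congr fun p => ?_
    rw [Complex.norm_real, Real.norm_eq_abs, Real.abs_exp]
  have hs' : ∀ R : ℝ, 0 ≤ R → Summable (fun p : ℤ × ℤ =>
      ‖(1 / (Y : ℂ)) *
      Complex.exp (2 * Real.pi * Complex.I * ((p.1 : ℂ) * a + (p.2 : ℂ) * b)) *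
      ((Real.exp (-Real.pi * ((p.1 : ℝ) ^ 2 + (p.2 : ℝ) ^ 2) / Y) : ℝ) : ℂ)‖ *
      Real.exp (R * ‖(-Complex.I / Y) * ((p.1 : ℂ) + (p.2 : ℂ) * Complex.I)‖)) := by
    intro R hR
    have h1 := (KK.summ2 0 0 (1 / Y) (R / Y) (by positivity) (by positivity)).mul_left (1 / Y)
    refine h1.congr fun p => ?_
    have e1 : ‖Complex.exp (2 * Real.pi * Complex.I * ((p.1 : ℂ) * a + (p.2 : ℂ) * b))‖ = 1 := by
      have : 2 * (Real.pi : ℂ) * Complex.I * ((p.1 : ℂ) * a + (p.2 : ℂ) * b) =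
          ((2 * Real.pi * (p.1 * a + p.2 * b) : ℝ) : ℂ) * Complex.I := by
        push_cast; ring
      rw [this, Complex.norm_exp_ofReal_mul_I]
    have e2 : ‖(-Complex.I / Y : ℂ)‖ = 1 / Y := by
      rw [norm_div, norm_neg, Complex.norm_I, Complex.norm_real, Real.norm_eq_abs, abs_of_pos hY]
    rw [norm_mul, norm_mul, e1, norm_mul (-Complex.I / (Y : ℂ)), e2, Complex.norm_real,
      Real.norm_eq_abs, Real.abs_exp, norm_div, norm_one, Complex.norm_real, Real.norm_eq_abs,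
      abs_of_pos hY]
    have e3 : ((((p.1 : ℝ) + 0 : ℝ) : ℂ) + (((p.2 : ℝ) + 0 : ℝ) : ℂ) * Complex.I) =
        (p.1 : ℂ) + (p.2 : ℂ) * Complex.I := by
      push_cast; ring
    rw [e3, add_zero, add_zero]
    have e4 : -Real.pi * (1 / Y) * ((p.1 : ℝ) ^ 2 + (p.2 : ℝ) ^ 2) =
        -Real.pi * ((p.1 : ℝ) ^ 2 + (p.2 : ℝ) ^ 2) / Y := by ring
    have e5 : R / Y * ‖(p.1 : ℂ) + (p.2 : ℂ) * Complex.I‖ =
        R * (1 / Y * ‖(p.1 : ℂ) + (p.2 : ℂ) * Complex.I‖) := by ring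
    rw [e4, e5]
    ring
  have hkey := KK.PS_eq _ _ _ _ hs hs' (fun s => KK.theta2 a b Y hY s) k
  have h1 := KK.PS_hasSum _ _ hs k 0
  have h2 := KK.PS_hasSum _ _ hs' k 0
  rw [← hkey] at h2
  refine ⟨_, h1.congr_fun fun p => ?_, h2.congr_fun fun p => ?_⟩
  · rw [zero_mul, Complex.exp_zero]
    ring
  · rw [zero_mul, Complex.exp_zero, mul_one, mul_pow]
    have : (-Complex.I / (Y : ℂ)) ^ k = (-Complex.I) ^ k / (Y : ℂ) ^ k := by
      rw [div_pow]
    rw [this, pow_succ]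
    field_simp

end Pool.Agent.W354.PK
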