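import Pool.Agent.W354.PK.Defs
import Pool.Agent.W354.PK.KernK
import Pool.Agent.W354.PK.GaussK
import Pool.Agent.H304R3.HK.ThetaH

set_option autoImplicit false

/-!
Functional equation of the theta series of a Hecke character of infinity type `k`
(adapted from `Pool.Agent.H304R3.HK.ThetaH`).
-/

open Finset Filter Topology

namespace Pool.Agent.W354.PK

open Pool.Agent.H304R3.HK (tc UH CS bb LamK Rep eq_ GS Lg rep_spec eq_per hasSum_rep)
open Pool.Agent.H304R3.HK.T1 (eqv tc_add tc_re tc_im tc_star tc_norm tc_ne mem_CS eq_star)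

namespace TK

theorem chi_le {k : ℕ} {q : GaussianInt} {χ : GaussianInt →* ℂ} (H : HCk k q χ) (a : GaussianInt) :
    ‖χ a‖ ≤ 1 := by
  by_cases h : IsCoprime a q
  · exact (H.nrm a h).le
  · have h2 : χ a = 0 := by
      by_contra h2
      exact h ((H.supp a).1 h2)
    rw [h2]
    simp

/-- the summand -/
noncomputable def ft (k : ℕ) (χ : GaussianInt →* ℂ) (y : ℝ) (a : GaussianInt) : ℂ :=
  χ a * (tc a) ^ k * (Real.exp (-Real.pi * ‖tc a‖ ^ 2 * y) : ℂ)

theorem eqv_apply (p : ℤ × ℤ) : eqv p = ⟨p.1, p.2⟩ := rfl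

theorem summ_lat (k : ℕ) {y : ℝ} (hy : 0 < y) : Summable (fun p : ℤ × ℤ =>
    ‖tc (eqv p)‖ ^ k * Real.exp (-Real.pi * ‖tc (eqv p)‖ ^ 2 * y)) := by
  have hs : ∀ R : ℝ, 0 ≤ R → Summable (fun p : ℤ × ℤ =>
      ‖((Real.exp (-Real.pi * y * (((p.1 : ℝ) + 0) ^ 2 + ((p.2 : ℝ) + 0) ^ 2)) : ℝ) : ℂ)‖ *
      Real.exp (R * ‖(((p.1 : ℝ) + 0 : ℝ) : ℂ) + (((p.2 : ℝ) + 0 : ℝ) : ℂ) * Complex.I‖)) := by
    intro R hR
    refine (KK.summ2 0 0 y R hy hR).congr fun p => ?_
    rw [Complex.norm_real, Real.norm_eq_abs, Real.abs_exp]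
  refine (KK.bnd _ _ hs k 0 le_rfl).congr fun p => ?_
  have e3 : ((((p.1 : ℝ) + 0 : ℝ) : ℂ) + (((p.2 : ℝ) + 0 : ℝ) : ℂ) * Complex.I) = tc (eqv p) := by
    rw [eqv_apply]
    unfold tc
    push_cast; ring
  rw [e3, zero_mul, Real.exp_zero, mul_one, Complex.norm_real, Real.norm_eq_abs, Real.abs_exp,
    mul_comm]
  congr 2
  rw [tc_norm, eqv_apply]
  ring

theorem ft_summable {k : ℕ} {q : GaussianInt} {χ : GaussianInt →* ℂ} (H : HCk k q χ) (y : ℝ)
    (hy : 0 < y) : Summable (ft k χ y ∘ eqv) := by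
  refine Summable.of_norm_bounded (summ_lat k hy) ?_
  intro p
  simp only [Function.comp_apply, ft]
  rw [norm_mul, norm_mul, Complex.norm_real, Real.norm_eq_abs, abs_of_pos (Real.exp_pos _),
    norm_pow]
  have h2 := chi_le H (eqv p)
  calc ‖χ (eqv p)‖ * ‖tc (eqv p)‖ ^ k * Real.exp (-Real.pi * ‖tc (eqv p)‖ ^ 2 * y)
      ≤ 1 * ‖tc (eqv p)‖ ^ k * Real.exp (-Real.pi * ‖tc (eqv p)‖ ^ 2 * y) := by gcongr
    _ = _ := by ring

theorem psik_apply (k : ℕ) (χ : GaussianInt →* ℂ) (a : GaussianInt) :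
    psik k χ a = if a = 0 then 0 else χ a * (tc a / (‖tc a‖ : ℂ)) ^ k := rfl

theorem psi_tc {k : ℕ} (hk : 1 ≤ k) (χ : GaussianInt →* ℂ) (a : GaussianInt) :
    psik k χ a * (‖tc a‖ : ℂ) ^ k = χ a * (tc a) ^ k := by
  by_cases ha : a = 0
  · subst ha
    have : tc (0 : GaussianInt) = 0 := by simp [tc]
    rw [this, norm_zero, Complex.ofReal_zero, zero_pow (by omega), mul_zero, mul_zero]
  · have h1 : (‖tc a‖ : ℂ) ≠ 0 := by
      rw [Complex.ofReal_ne_zero, norm_ne_zero_iff]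
      exact tc_ne a ha
    rw [psik_apply, if_neg ha, div_pow]
    field_simp

theorem fib {k : ℕ} (hk : 1 ≤ k) (χ : GaussianInt →* ℂ) (y : ℝ) (n : ℕ) :
    ∑' b : ((fun p : ℤ × ℤ => (p.1 ^ 2 + p.2 ^ 2).natAbs) ⁻¹' {n}), (ft k χ y ∘ eqv) b
      = 4 * (bK k χ n * (Real.sqrt n : ℂ) ^ k * (Real.exp (-Real.pi * n * y) : ℂ)) := by
  rw [tsum_subtype ((fun p : ℤ × ℤ => (p.1 ^ 2 + p.2 ^ 2).natAbs) ⁻¹' {n}) (ft k χ y ∘ eqv)]
  rw [tsum_eq_sum (s := CS n)]
  · unfold bK bb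
    have e : (4 : ℂ) * ((1 / 4 : ℂ) * (∑ p ∈ CS n, psik k χ ⟨p.1, p.2⟩) * (Real.sqrt n : ℂ) ^ k *
        (Real.exp (-Real.pi * n * y) : ℂ)) = ∑ p ∈ CS n, psik k χ ⟨p.1, p.2⟩ *
        (Real.sqrt n : ℂ) ^ k * (Real.exp (-Real.pi * n * y) : ℂ) := by
      rw [← sum_mul, ← sum_mul]
      ring
    rw [e]
    refine sum_congr rfl fun p hp => ?_
    rw [mem_CS] at hp
    have h1 : (p.1 ^ 2 + p.2 ^ 2).natAbs = n := by
      rw [hp]
      simp
    rw [Set.indicator_of_mem]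
    · have h2 : ‖tc ⟨p.1, p.2⟩‖ ^ 2 = (n : ℝ) := by
        rw [tc_norm]
        have : ((p.1 ^ 2 + p.2 ^ 2 : ℤ) : ℝ) = ((n : ℤ) : ℝ) := by rw [hp]
        push_cast at this
        exact this
      have h3 : Real.sqrt n = ‖tc ⟨p.1, p.2⟩‖ := by
        rw [← h2, Real.sqrt_sq (norm_nonneg _)]
      simp only [Function.comp_apply, ft, eqv, Equiv.coe_fn_mk]
      rw [h3, psi_tc hk, h2]
    · exact h1
  · intro p hp
    by_cases h : p ∈ (fun p : ℤ × ℤ => (p.1 ^ 2 + p.2 ^ 2).natAbs) ⁻¹' {n}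
    · exfalso
      refine hp ?_
      rw [mem_CS]
      have h3 : (p.1 ^ 2 + p.2 ^ 2).natAbs = n := h
      have h4 : (0 : ℤ) ≤ p.1 ^ 2 + p.2 ^ 2 := by positivity
      rw [← h3]
      omega
    · rw [Set.indicator_of_notMem h]

theorem th_hasSum {k : ℕ} (hk : 1 ≤ k) {q : GaussianInt} {χ : GaussianInt →* ℂ} (H : HCk k q χ)
    (y : ℝ) (hy : 0 < y) :
    HasSum (fun n : ℕ => bK k χ n * (Real.sqrt n : ℂ) ^ k * (Real.exp (-Real.pi * n * y) : ℂ))
      (THk k (bK k χ) y) ∧ HasSum (ft k χ y) (4 * THk k (bK k χ) y) := by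
  have hs := ft_summable H y hy
  have hf := hs.hasSum.tsum_fiberwise (fun p : ℤ × ℤ => (p.1 ^ 2 + p.2 ^ 2).natAbs)
  simp_rw [fib hk] at hf
  have h1 := hf.mul_left ((1 : ℂ) / 4)
  have e : (fun n : ℕ => (1 : ℂ) / 4 * (4 * (bK k χ n * (Real.sqrt n : ℂ) ^ k *
      (Real.exp (-Real.pi * n * y) : ℂ)))) = fun n : ℕ => bK k χ n * (Real.sqrt n : ℂ) ^ k *
      (Real.exp (-Real.pi * n * y) : ℂ) := by
    funext n
    ring
  rw [e] at h1
  have h2 : HasSum (fun n : ℕ => bK k χ n * (Real.sqrt n : ℂ) ^ k *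
      (Real.exp (-Real.pi * n * y) : ℂ)) (THk k (bK k χ) y) := h1.summable.hasSum
  refine ⟨h2, ?_⟩
  have h3 : (4 : ℂ) * THk k (bK k χ) y = ∑' p, (ft k χ y ∘ eqv) p := by
    rw [h2.unique h1]
    ring
  rw [h3, ← eqv.hasSum_iff]
  exact hs.hasSum

theorem dual {k : ℕ} (hk : 1 ≤ k) (q : GaussianInt) (χ : GaussianInt →* ℂ)
    (H : HCk k q χ) (y : ℝ) (hy : 0 < y) :
    THk k (bK k χ) y = ((tc q) ^ k * ((-Complex.I) ^ k / ((y * ‖tc q‖ ^ 2 : ℝ) : ℂ) ^ (k + 1)) *
      GS q χ 1) * (starRingEnd ℂ) (THk k (bK k χ) (1 / (y * ‖tc q‖ ^ 2))) := by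
  have hq : tc q ≠ 0 := tc_ne q H.q0
  have hqn : 0 < ‖tc q‖ := norm_pos_iff.2 hq
  set Y : ℝ := y * ‖tc q‖ ^ 2 with hYdef
  have hY : 0 < Y := by positivity
  have hk : ∀ c : GaussianInt, ∃ V : ℂ,
    HasSum (fun p : ℤ × ℤ => ((((p.1 : ℝ) + (tc c / tc q).re : ℝ) : ℂ) +
      (((p.2 : ℝ) + (tc c / tc q).im : ℝ) : ℂ) * Complex.I) ^ k *
      (Real.exp (-Real.pi * Y * (((p.1 : ℝ) + (tc c / tc q).re) ^ 2 +
        ((p.2 : ℝ) + (tc c / tc q).im) ^ 2)) : ℂ)) V ∧
    HasSum (fun p : ℤ × ℤ => ((-Complex.I) ^ k / (Y : ℂ) ^ (k + 1)) *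
      ((p.1 : ℂ) + (p.2 : ℂ) * Complex.I) ^ k *
      Complex.exp (2 * Real.pi * Complex.I * ((p.1 : ℂ) * ((tc c / tc q).re : ℝ) +
        (p.2 : ℂ) * ((tc c / tc q).im : ℝ))) *
      (Real.exp (-Real.pi * ((p.1 : ℝ) ^ 2 + (p.2 : ℝ) ^ 2) / Y) : ℂ)) V :=
    fun c => kernk_fe k _ _ Y hY
  choose V hV1 hV2 using hk
  -- the left side
  have hA : HasSum (ft k χ y) (∑ c ∈ Rep q, χ c * (tc q) ^ k * V c) := by
    refine hasSum_rep q H.q0 (ft k χ y) (fun c => χ c * (tc q) ^ k * V c) ?_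
    intro c _
    have h1 := (hV1 c).mul_left (χ c * (tc q) ^ k)
    rw [← eqv.hasSum_iff]
    refine h1.congr_fun ?_
    intro p
    simp only [Function.comp_apply, ft]
    have e1 : χ (c + q * eqv p) = χ c := H.per _ _ ⟨eqv p, by ring⟩
    set z := tc c / tc q with hz
    have e2 : tc (c + q * eqv p) = tc q * (tc (eqv p) + z) := by
      rw [tc_add, tc_mul, hz]
      field_simp
      ring
    have e3 : tc (eqv p) + z = (((p.1 : ℝ) + z.re : ℝ) : ℂ) + (((p.2 : ℝ) + z.im : ℝ) : ℂ) *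
        Complex.I := by
      apply Complex.ext
      · rw [Complex.add_re, tc_re]
        simp [eqv]
      · rw [Complex.add_im, tc_im]
        simp [eqv]
    have e4 : ‖tc (eqv p) + z‖ ^ 2 = ((p.1 : ℝ) + z.re) ^ 2 + ((p.2 : ℝ) + z.im) ^ 2 := by
      rw [Complex.sq_norm, Complex.normSq_apply, Complex.add_re, Complex.add_im, tc_re, tc_im]
      simp only [eqv, Equiv.coe_fn_mk]
      ring
    have e5 : -Real.pi * ‖tc (c + q * eqv p)‖ ^ 2 * y =
        -Real.pi * Y * (((p.1 : ℝ) + z.re) ^ 2 + ((p.2 : ℝ) + z.im) ^ 2) := by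
      rw [e2, norm_mul, mul_pow, e4, hYdef]
      ring
    rw [e5, e1, e2, e3, mul_pow]
    ring
  -- the right side
  have hB : HasSum (fun m : GaussianInt => ∑ c ∈ Rep q, (χ c * (tc q) ^ k) *
      (((-Complex.I) ^ k / (Y : ℂ) ^ (k + 1)) * (tc m) ^ k * eq_ q (star m * c) *
        (Real.exp (-Real.pi * ‖tc m‖ ^ 2 * (1 / Y)) : ℂ)))
        (∑ c ∈ Rep q, χ c * (tc q) ^ k * V c) := by
    apply hasSum_sum
    intro c _
    have h1 := (hV2 c).mul_left (χ c * (tc q) ^ k)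
    rw [← eqv.hasSum_iff]
    refine h1.congr_fun ?_
    intro p
    simp only [Function.comp_apply]
    rw [eq_star]
    have e1 : -Real.pi * ‖tc (eqv p)‖ ^ 2 * (1 / Y) =
        -Real.pi * ((p.1 : ℝ) ^ 2 + (p.2 : ℝ) ^ 2) / Y := by
      rw [tc_norm]
      simp only [eqv, Equiv.coe_fn_mk]
      ring
    rw [e1]
    rfl
  have hC := ((Function.Involutive.toPerm (star : GaussianInt → GaussianInt)
    star_involutive).hasSum_iff).2 hB
  have h1 := (th_hasSum ‹1 ≤ k› H y hy).2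
  have h2 := (Complex.hasSum_conj'.2 (th_hasSum ‹1 ≤ k› H (1 / Y) (by positivity)).2).mul_left
    ((tc q) ^ k * ((-Complex.I) ^ k / (Y : ℂ) ^ (k + 1)) * GS q χ 1)
  have h3 := h2.unique (hC.congr_fun ?_)
  · have h4 := h1.unique hA
    rw [h4.symm] at h3
    have h5 : (4 : ℂ) * THk k (bK k χ) y = 4 * (((tc q) ^ k * ((-Complex.I) ^ k /
        (Y : ℂ) ^ (k + 1)) * GS q χ 1) *
        (starRingEnd ℂ) (THk k (bK k χ) (1 / Y))) := by
      rw [← h3, map_mul]
      have : (starRingEnd ℂ) (4 : ℂ) = 4 := Complex.conj_ofNat 4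
      rw [this]
      ring
    exact mul_left_cancel₀ (by norm_num) h5
  · intro m
    simp only [Function.comp_apply, Function.Involutive.coe_toPerm, ft, star_star]
    have e1 : ‖tc (star m)‖ = ‖tc m‖ := by
      rw [tc_star, Complex.norm_conj]
    have e2 : ∑ c ∈ Rep q, (χ c * (tc q) ^ k) * (((-Complex.I) ^ k / (Y : ℂ) ^ (k + 1)) *
        (tc (star m)) ^ k *
        eq_ q (m * c) * (Real.exp (-Real.pi * ‖tc m‖ ^ 2 * (1 / Y)) : ℂ)) =
        ((tc q) ^ k * ((-Complex.I) ^ k / (Y : ℂ) ^ (k + 1)) * (tc (star m)) ^ k *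
          (Real.exp (-Real.pi * ‖tc m‖ ^ 2 * (1 / Y)) : ℂ)) * GS q χ m := by
      unfold GS
      rw [mul_sum]
      refine sum_congr rfl fun c _ => ?_
      ring
    rw [e1, e2, gs_eq k q χ H m, tc_star, map_mul, map_mul, map_pow, Complex.conj_ofReal]
    ring

theorem psik_i {k : ℕ} {q : GaussianInt} {χ : GaussianInt →* ℂ} (H : HCk k q χ) :
    psik k χ ⟨0, 1⟩ = 1 := by
  have h0 : (⟨0, 1⟩ : GaussianInt) ≠ 0 := by
    intro h
    have := congrArg Zsqrtd.im h
    simp at this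
  rw [psik_apply, if_neg h0, H.unit]
  have e : tc ⟨0, 1⟩ = Complex.I := by simp [tc]
  rw [e]
  simp only [Complex.norm_I, Complex.ofReal_one, div_one]
  rw [← mul_pow]
  simp

theorem bK_one {k : ℕ} {q : GaussianInt} {χ : GaussianInt →* ℂ} (H : HCk k q χ) :
    bK k χ 1 = 1 := by
  have hi : psik k χ ⟨0, 1⟩ = 1 := psik_i H
  have h1 : psik k χ ⟨1, 0⟩ = 1 := by
    have : (⟨1, 0⟩ : GaussianInt) = 1 := rfl
    rw [this, map_one]
  have h2 : psik k χ ⟨-1, 0⟩ = 1 := by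
    have : (⟨-1, 0⟩ : GaussianInt) = ⟨0, 1⟩ * ⟨0, 1⟩ := by decide +kernel
    rw [this, map_mul, hi]
    norm_num
  have h3 : psik k χ ⟨0, -1⟩ = 1 := by
    have : (⟨0, -1⟩ : GaussianInt) = ⟨-1, 0⟩ * ⟨0, 1⟩ := by decide +kernel
    rw [this, map_mul, hi, h2]
    norm_num
  have hCS : CS 1 = {(1, 0), (-1, 0), (0, 1), (0, -1)} := by
    decide +kernel
  unfold bK bb
  rw [hCS]
  rw [sum_insert (by decide), sum_insert (by decide), sum_insert (by decide), sum_singleton]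
  rw [h1, h2, h3, hi]
  norm_num

theorem th_ne {k : ℕ} (hk : 1 ≤ k) {q : GaussianInt} {χ : GaussianInt →* ℂ} (H : HCk k q χ) :
    ∃ y : ℝ, 0 < y ∧ THk k (bK k χ) y ≠ 0 := by
  by_contra hcon
  push Not at hcon
  set b := bK k χ with hb
  -- dominated convergence
  have hlim : Tendsto (fun y : ℝ => ∑' n : ℕ, (Real.exp (Real.pi * y) : ℂ) *
      (b n * (Real.sqrt n : ℂ) ^ k * (Real.exp (-Real.pi * n * y) : ℂ))) atTop
      (𝓝 (∑' n : ℕ, if n = 1 then (1 : ℂ) else 0)) := by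
    have hsum := (th_hasSum hk H 1 one_pos).1.summable.norm.mul_left (Real.exp Real.pi)
    refine tendsto_tsum_of_dominated_convergence hsum ?_ ?_
    · intro n
      rcases Nat.lt_trichotomy n 1 with hn | hn | hn
      · have : n = 0 := by omega
        subst this
        simp [zero_pow (by omega : k ≠ 0)]
      · subst hn
        simp only [if_true]
        have e : (fun y : ℝ => (Real.exp (Real.pi * y) : ℂ) *
            (b 1 * (Real.sqrt (1 : ℕ) : ℂ) ^ k * (Real.exp (-Real.pi * (1 : ℕ) * y) : ℂ)))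
            = fun _ => (1 : ℂ) := by
          funext y
          rw [hb, bK_one H]
          have : (Real.exp (Real.pi * y) : ℂ) * (Real.exp (-Real.pi * (1 : ℕ) * y) : ℂ) = 1 := by
            rw [← Complex.ofReal_mul, ← Real.exp_add]
            have : Real.pi * y + -Real.pi * ((1 : ℕ) : ℝ) * y = 0 := by
              push_cast
              ring
            rw [this]
            simp
          simp only [Nat.cast_one, Real.sqrt_one, Complex.ofReal_one, one_mul, one_pow]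
          simp only [Nat.cast_one] at this
          exact this
        rw [e]
        exact tendsto_const_nhds
      · rw [if_neg (by omega)]
        have e : (fun y : ℝ => (Real.exp (Real.pi * y) : ℂ) *
            (b n * (Real.sqrt n : ℂ) ^ k * (Real.exp (-Real.pi * n * y) : ℂ)))
            = fun y => (b n * (Real.sqrt n : ℂ) ^ k) *
              ((Real.exp (-(Real.pi * (n - 1)) * y) : ℝ) : ℂ) := by
          funext y
          have : ((Real.exp (-(Real.pi * (n - 1)) * y) : ℝ) : ℂ) =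
              (Real.exp (Real.pi * y) : ℂ) * (Real.exp (-Real.pi * n * y) : ℂ) := by
            rw [← Complex.ofReal_mul, ← Real.exp_add]
            congr 2
            ring
          rw [this]
          ring
        rw [e]
        have hn1 : (0 : ℝ) < Real.pi * (n - 1) := by
          have : (1 : ℝ) < n := by exact_mod_cast hn
          have := Real.pi_pos
          nlinarith
        have h1 : Tendsto (fun y : ℝ => Real.exp (-(Real.pi * (n - 1)) * y)) atTop (𝓝 0) := by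
          have h2 : Tendsto (fun y : ℝ => (Real.pi * (n - 1)) * y) atTop atTop :=
            tendsto_id.const_mul_atTop hn1
          have h3 := Real.tendsto_exp_neg_atTop_nhds_zero.comp h2
          refine h3.congr fun y => ?_
          simp only [Function.comp_apply]
          congr 1
          ring
        have h4 := (Complex.continuous_ofReal.tendsto 0).comp h1
        have h5 := h4.const_mul (b n * (Real.sqrt n : ℂ) ^ k)
        simpa using h5
    · filter_upwards [eventually_ge_atTop (1 : ℝ)] with y hy n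
      rcases Nat.eq_zero_or_pos n with hn | hn
      · subst hn
        simp [zero_pow (by omega : k ≠ 0)]
      · have hn1 : (1 : ℝ) ≤ n := by exact_mod_cast hn
        simp only [norm_mul, norm_pow, Complex.norm_real, Real.norm_eq_abs, Real.abs_exp]
        have h1 : Real.exp (Real.pi * y) * Real.exp (-Real.pi * n * y) ≤
            Real.exp Real.pi * Real.exp (-Real.pi * n * 1) := by
          rw [← Real.exp_add, ← Real.exp_add]
          apply Real.exp_le_exp.2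
          have h2 : 0 ≤ Real.pi * ((n - 1) * (y - 1)) :=
            mul_nonneg Real.pi_pos.le (mul_nonneg (by linarith) (by linarith))
          nlinarith
        calc Real.exp (Real.pi * y) * (‖b n‖ * |Real.sqrt n| ^ k * Real.exp (-Real.pi * n * y))
            = (‖b n‖ * |Real.sqrt n| ^ k) *
              (Real.exp (Real.pi * y) * Real.exp (-Real.pi * n * y)) := by
              ring
          _ ≤ (‖b n‖ * |Real.sqrt n| ^ k) * (Real.exp Real.pi * Real.exp (-Real.pi * n * 1)) :=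
              mul_le_mul_of_nonneg_left h1 (by positivity)
          _ = _ := by ring
  have hzero : ∀ᶠ y : ℝ in atTop, (∑' n : ℕ, (Real.exp (Real.pi * y) : ℂ) *
      (b n * (Real.sqrt n : ℂ) ^ k * (Real.exp (-Real.pi * n * y) : ℂ))) = 0 := by
    filter_upwards [eventually_gt_atTop (0 : ℝ)] with y hy
    rw [tsum_mul_left]
    have : THk k b y = 0 := hcon y hy
    unfold THk at this
    rw [this, mul_zero]
  have h1 : Tendsto (fun _ : ℝ => (0 : ℂ)) atTop
      (𝓝 (∑' n : ℕ, if n = 1 then (1 : ℂ) else 0)) := hlim.congr' hzero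
  have h2 := tendsto_nhds_unique h1 tendsto_const_nhds
  rw [tsum_ite_eq] at h2
  exact one_ne_zero h2

end TK

theorem theta_fe {k : ℕ} (hk : 1 ≤ k) (q : GaussianInt) (χ : GaussianInt →* ℂ)
    (H : HCk k q χ) :
    ∃ w : ℂ, ‖w‖ = 1 ∧ ∀ x : ℝ, 0 < x →
      THk k (bK k χ) (1 / (‖tc q‖ * x)) =
        w * (x : ℂ) ^ (k + 1) * (starRingEnd ℂ) (THk k (bK k χ) (x / ‖tc q‖)) := by
  have hq : tc q ≠ 0 := tc_ne q H.q0
  have hqn : 0 < ‖tc q‖ := norm_pos_iff.2 hq
  have hqc : (‖tc q‖ : ℂ) ≠ 0 := by exact_mod_cast hqn.ne'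
  set w : ℂ := (tc q) ^ k * (-Complex.I) ^ k * GS q χ 1 / (‖tc q‖ : ℂ) ^ (k + 1) with hw
  have hfe : ∀ x : ℝ, 0 < x → THk k (bK k χ) (1 / (‖tc q‖ * x)) =
        w * (x : ℂ) ^ (k + 1) * (starRingEnd ℂ) (THk k (bK k χ) (x / ‖tc q‖)) := by
    intro x hx
    have hxc : (x : ℂ) ≠ 0 := by exact_mod_cast hx.ne'
    have h1 := TK.dual hk q χ H (1 / (‖tc q‖ * x)) (by positivity)
    have e1 : 1 / (‖tc q‖ * x) * ‖tc q‖ ^ 2 = ‖tc q‖ / x := by
      field_simp
    have e2 : 1 / (‖tc q‖ / x) = x / ‖tc q‖ := by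
      field_simp
    rw [e1, e2] at h1
    rw [h1, hw]
    push_cast
    rw [div_pow]
    field_simp
  refine ⟨w, ?_, hfe⟩
  obtain ⟨y, hy, hne⟩ := TK.th_ne hk H
  set x : ℝ := 1 / (‖tc q‖ * y) with hx
  have hx0 : 0 < x := by positivity
  have hxc : (x : ℂ) ≠ 0 := by exact_mod_cast hx0.ne'
  have ey : 1 / (‖tc q‖ * x) = y := by
    rw [hx]
    field_simp
  have h1 := hfe x hx0
  rw [ey] at h1
  have h2 := hfe (1 / x) (by positivity)
  have e3 : 1 / (‖tc q‖ * (1 / x)) = x / ‖tc q‖ := by field_simp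
  have e4 : 1 / x / ‖tc q‖ = y := by
    rw [← ey]
    field_simp
  rw [e3, e4] at h2
  rw [h2, map_mul, map_mul, map_pow, Complex.conj_ofReal, Complex.conj_conj] at h1
  have h3 : THk k (bK k χ) y = (w * (starRingEnd ℂ) w) * THk k (bK k χ) y := by
    conv_lhs => rw [h1]
    push_cast
    rw [one_div, inv_pow]
    field_simp
  have h4 : w * (starRingEnd ℂ) w = 1 := by
    have h5 : (w * (starRingEnd ℂ) w - 1) * THk k (bK k χ) y = 0 := by
      rw [sub_mul, ← h3]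
      ring
    rcases mul_eq_zero.1 h5 with h6 | h6
    · linear_combination h6
    · exact absurd h6 hne
  rw [Complex.mul_conj, Complex.normSq_eq_norm_sq] at h4
  have h5 : ‖w‖ ^ 2 = 1 := by exact_mod_cast h4
  nlinarith [norm_nonneg w]

end Pool.Agent.W354.PK
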