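import Pool.Agent.H304R3.HK.Fin
import Pool.Agent.W354.PK.GrowthK
import Pool.Agent.W354.PK.LeftK
import Pool.Agent.W354.PK.SqK
import Pool.Agent.W354.PK.ThetaK
import Pool.Agent.W354.GE.GoodE

set_option autoImplicit false

/-!
All analytic facts about the Hecke L-functions of infinity type `k`, uniformly in `k` and in the
modulus (adapted from `Pool.Agent.H304R3.HK.Fin`).
-/

open Finset Filter Topology

namespace Pool.Agent.W354.PK

open Pool.Agent.H304R3.HK

/-- half of the logarithmic conductor at height `t` -/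
noncomputable def lck (k : ℕ) (κ : ℝ) (t : ℝ) : ℝ := Real.log (κ * (k + t))

theorem lck_logC (k : ℕ) {κ : ℝ} (hκ : 1 ≤ κ) : LogC (lck k κ) where
  mono := by
    intro x y hx hxy
    unfold lck
    have hk : (0 : ℝ) ≤ k := by positivity
    apply Real.log_le_log (by positivity)
    gcongr
  low := by
    intro x hx
    unfold lck
    have hk : (0 : ℝ) ≤ k := by positivity
    apply Real.log_le_log (by positivity)
    nlinarith
  slow := by
    intro x y hx hxy
    unfold lck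
    have hk : (0 : ℝ) ≤ k := by positivity
    have hx0 : 0 < x := by linarith
    have hy0 : 0 < y := by linarith
    rw [← Real.log_mul (by positivity) (by positivity)]
    apply Real.log_le_log (by positivity)
    rw [mul_assoc]
    apply mul_le_mul_of_nonneg_left _ (by linarith)
    rw [mul_div_assoc', le_div_iff₀ hx0]
    nlinarith

theorem th_psik {k : ℕ} (hk : 1 ≤ k) (q : GaussianInt) (χ : GaussianInt →* ℂ) (H : HCk k q χ) :
    ∃ w : ℂ, Thk k ‖tc q‖ (bK k χ) w := by
  obtain ⟨w, hw, hfe⟩ := theta_fe hk q χ H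
  have hL := lg_bb (psik k χ) (uh_psik H)
  exact ⟨w, hk, one_le_norm_tc H.q0, hL.b0, hL.bd, hw, hfe⟩

/-- all analytic facts about the Hecke L-functions of infinity type `k`, uniformly in `k` and the
modulus -/
theorem goodK : ∃ A : ℝ, 1 ≤ A ∧ ∀ (k : ℕ) (q : GaussianInt) (χ : GaussianInt →* ℂ), 1 ≤ k →
    HCk k q χ →
    Differentiable ℂ (LK k χ) ∧
    (∀ s : ℂ, 1 < s.re → HasSum (fun n : ℕ => bK k χ n * (n : ℂ) ^ (-s)) (LK k χ s)) ∧
    (∀ n, ‖aK k χ n‖ ≤ 2 * ArithmeticFunction.vonMangoldt n) ∧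
    GoodE 2 A (lck k ‖tc q‖) (LK k χ) (aK k χ) := by
  obtain ⟨A1, hA1, hgr⟩ := FF_growth
  obtain ⟨A2, hA2, hleft⟩ := FF_left
  obtain ⟨c0, hc0, hlow⟩ := F_lower
  refine ⟨max (max A1 A2) (c0⁻¹), le_max_of_le_left (le_max_of_le_left hA1), ?_⟩
  intro k q χ hk H
  obtain ⟨w, hTh⟩ := th_psik hk q χ H
  have hLg := lg_bb (psik k χ) (uh_psik H)
  have hent : Differentiable ℂ (LK k χ) := FF_entire _ _ _ _ hTh
  have hser : ∀ s : ℂ, 1 < s.re →
      HasSum (fun n : ℕ => bK k χ n * (n : ℂ) ^ (-s)) (LK k χ s) := by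
    intro s hs
    exact FF_series k (bK k χ) hLg.b0 hLg.bd s hs
  have haH : ∀ n, aK k χ n = (ArithmeticFunction.vonMangoldt n : ℂ) * ccf (psik k χ) n :=
    fun n => lam_eq (psik k χ) (uh_psik H) n
  have hab : ∀ n, ‖aK k χ n‖ ≤ 2 * ArithmeticFunction.vonMangoldt n := by
    intro n
    rw [haH, norm_mul, Complex.norm_real, Real.norm_of_nonneg
      ArithmeticFunction.vonMangoldt_nonneg]
    nlinarith [hLg.cd n, norm_nonneg (ccf (psik k χ) n),
      ArithmeticFunction.vonMangoldt_nonneg (n := n)]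
  have hne : ∀ s : ℂ, 1 < s.re → LK k χ s ≠ 0 :=
    fun s hs => F_ne_zero (bK k χ) (ccf (psik k χ)) hLg (LK k χ) hser s hs
  have hnz : ∀ s : ℂ, 1 ≤ s.re → 1 ≤ s.im → LK k χ s ≠ 0 := by
    intro s h1 h2
    rcases h1.lt_or_eq with h1 | h1
    · exact hne s h1
    · obtain ⟨G, hG, sG⟩ := psi_sq hk q χ H
      have h3 := nz_line_of lg_bb lam_eq lam_one F_ne_zero F_ld (psik k χ) (uh_psik H) (LK k χ) G
        hent hG hser sG s.im (by linarith)
      have h4 : s = ⟨1, s.im⟩ := Complex.ext h1.symm rfl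
      rw [h4]
      exact h3
  refine ⟨hent, hser, hab, ?_⟩
  constructor
  · intro s _
    exact hent.analyticAt s
  · intro s h1 h2 h3
    refine (hgr _ _ _ _ hTh s h1 h2 h3).trans ?_
    have hκ := one_le_norm_tc H.q0
    have hk0 : (0 : ℝ) ≤ k := by positivity
    have hQ : 1 ≤ ‖tc q‖ * (k + s.im) := by nlinarith
    have hA : A1 ≤ max (max A1 A2) (c0⁻¹) := le_max_of_le_left (le_max_left _ _)
    have h5 : (‖tc q‖ * (k + s.im)) ^ A1 ≤
        (‖tc q‖ * (k + s.im)) ^ (max (max A1 A2) (c0⁻¹)) :=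
      Real.rpow_le_rpow_of_exponent_le hQ hA
    have h6 : (‖tc q‖ * (k + s.im)) ^ (max (max A1 A2) (c0⁻¹)) =
        Real.exp ((max (max A1 A2) (c0⁻¹)) * lck k ‖tc q‖ s.im) := by
      unfold lck
      rw [Real.rpow_def_of_pos (by linarith), mul_comm]
    rw [← h6]
    exact mul_le_mul hA h5 (by positivity) (by linarith)
  · intro t _
    have h1 : (max (max A1 A2) (c0⁻¹))⁻¹ ≤ c0 := by
      rw [inv_le_comm₀ (lt_of_lt_of_le (by linarith) (le_max_of_le_left (le_max_left A1 A2))) hc0]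
      exact le_max_right _ _
    exact h1.trans (hlow (bK k χ) (ccf (psik k χ)) (LK k χ) hLg hser t)
  · exact hnz
  · intro s h1 h2
    exact FF_nzl _ _ _ _ hTh hnz s h1 h2
  · intro s _ _ h3
    exact FF_symm _ _ _ _ hTh s h3
  · exact hab
  · intro s hs _
    rw [F_ld (bK k χ) (ccf (psik k χ)) hLg (LK k χ) hser s hs]
    congr 1
    apply tsum_congr
    intro n
    rw [haH]
  · intro s h1 h2 h3 h4
    exact (hleft _ _ _ _ hTh s h1 h2 h3 h4).trans (le_max_of_le_left (le_max_right _ _))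

end Pool.Agent.W354.PK
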