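import Pool.Agent.H304R3.HK.Defs

set_option autoImplicit false

/-!
Hecke characters of `ℚ(i)` of infinity type `k` (adapted from `Pool.Agent.H304R3.HK.Defs`, which
treats `k = 1`).
-/

namespace Pool.Agent.W354.PK

open Complex
open Pool.Agent.H304R3.HK (tc UH CS bb LamK Rep eq_ GS Lg)

/-- `χ` is (the extension by zero to `ℤ[i]` of) a primitive character of `(ℤ[i]/q)ˣ` with
`χ(i) = (-i)^k`, so that `χ(a) (a / |a|)^k` only depends on the ideal `(a)` -/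
structure HCk (k : ℕ) (q : GaussianInt) (χ : GaussianInt →* ℂ) : Prop where
  q0 : q ≠ 0
  per : ∀ a b : GaussianInt, q ∣ a - b → χ a = χ b
  supp : ∀ a : GaussianInt, χ a ≠ 0 ↔ IsCoprime a q
  nrm : ∀ a : GaussianInt, IsCoprime a q → ‖χ a‖ = 1
  unit : χ ⟨0, 1⟩ = (-I) ^ k
  prim : ∀ d : GaussianInt, d ∣ q → ¬ q ∣ d → ∃ a : GaussianInt, IsCoprime a q ∧ d ∣ a - 1 ∧ χ a ≠ 1

theorem tc_mul (a b : GaussianInt) : tc (a * b) = tc a * tc b := by
  simp only [tc, Zsqrtd.re_mul, Zsqrtd.im_mul]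
  push_cast
  linear_combination (-(a.im : ℂ) * b.im) * Complex.I_sq

/-- `ψ(a) = χ(a) (a / |a|)^k` -/
noncomputable def psik (k : ℕ) (χ : GaussianInt →* ℂ) : GaussianInt →* ℂ where
  toFun a := if a = 0 then 0 else χ a * (tc a / (‖tc a‖ : ℂ)) ^ k
  map_one' := by simp [tc]
  map_mul' := by
    intro a b
    by_cases ha : a = 0
    · simp [ha]
    by_cases hb : b = 0
    · simp [hb]
    rw [if_neg ha, if_neg hb, if_neg (mul_ne_zero ha hb), map_mul, tc_mul, norm_mul]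
    push_cast
    rw [mul_div_mul_comm, mul_pow]
    ring

/-- coefficients of `L(s, ψ)` : `∑_{N(𝔞) = n} ψ(𝔞)` -/
noncomputable def bK (k : ℕ) (χ : GaussianInt →* ℂ) (n : ℕ) : ℂ := bb (psik k χ) n

/-- coefficients of `-L'/L(s, ψ)` : `∑_{N(𝔞) = n} Λ(𝔞) ψ(𝔞)` -/
noncomputable def aK (k : ℕ) (χ : GaussianInt →* ℂ) (n : ℕ) : ℂ :=
  bb (fun a => (LamK a : ℂ) * psik k χ a) n

/-- theta series `∑ b(n) (√n)^k e^{-π n y}` -/
noncomputable def THk (k : ℕ) (b : ℕ → ℂ) (y : ℝ) : ℂ :=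
  ∑' n : ℕ, b n * (Real.sqrt n : ℂ) ^ k * (Real.exp (-Real.pi * n * y) : ℂ)

/-- the function with Dirichlet series `∑ b(n) n^{-s}`, continued by its Mellin integral -/
noncomputable def FFk (k : ℕ) (b : ℕ → ℂ) (s : ℂ) : ℂ :=
  (Real.pi : ℂ) ^ (s + k / 2) * (Complex.Gamma (s + k / 2))⁻¹ * mellin (THk k b) (s + k / 2)

/-- the completed function for the scale `κ` -/
noncomputable def LLk (k : ℕ) (κ : ℝ) (b : ℕ → ℂ) (s : ℂ) : ℂ :=
  mellin (fun x : ℝ => THk k b (x / κ)) (s + k / 2)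

/-- the L-function of `ψ` -/
noncomputable def LK (k : ℕ) (χ : GaussianInt →* ℂ) : ℂ → ℂ := FFk k (bK k χ)

/-- analytic hypothesis: size of the coefficients and functional equation of the theta series -/
structure Thk (k : ℕ) (κ : ℝ) (b : ℕ → ℂ) (w : ℂ) : Prop where
  k0 : 1 ≤ k
  k1 : 1 ≤ κ
  b0 : b 0 = 0
  bd : ∀ n : ℕ, ‖b n‖ ≤ n.divisors.card
  w1 : ‖w‖ = 1
  fe : ∀ x : ℝ, 0 < x →
    THk k b (1 / (κ * x)) = w * (x : ℂ) ^ (k + 1) * (starRingEnd ℂ) (THk k b (x / κ))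

end Pool.Agent.W354.PK
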